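import Mathlib.AlgebraicGeometry.FunctionField
import Mathlib.AlgebraicGeometry.Morphisms.Proper
import Mathlib.AlgebraicGeometry.Noetherian
import Mathlib.Analysis.Complex.Basic
import Mathlib.RingTheory.AdicCompletion.Completeness
import Mathlib.RingTheory.AdicCompletion.Noetherian
import Mathlib.RingTheory.Ideal.Height
import Mathlib.RingTheory.IntegralClosure.IntegrallyClosed
import Mathlib.AlgebraicGeometry.ValuativeCriterion
import Mathlib.Algebra.BigOperators.Field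
import Mathlib.Order.Filter.AtTopBot.Finite
import Mathlib.RingTheory.Ideal.Operations
import Mathlib.RingTheory.KrullDimension.NonZeroDivisors
import Mathlib.RingTheory.KrullDimension.Polynomial
import Mathlib.RingTheory.Polynomial.Basic
import Mathlib.RingTheory.Valuation.LocalSubring
import Mathlib.Topology.Compactness.Compact
import Mathlib.Topology.Inseparable
import Mathlib.RingTheory.Filtration
import Mathlib.Tactic.LinearCombination
import Mathlib.RingTheory.Ideal.AssociatedPrime.Basic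
import Mathlib.RingTheory.Ideal.KrullsHeightTheorem
import Pool.Agent.MP_648617_ag.Defs
import Mathlib.AlgebraicGeometry.Morphisms.ClosedImmersion
import Mathlib.RingTheory.Flat.TorsionFree

-- ======== part 0: formerly Pool.Agent.MP_648617_ag.amp.Spec
section MrgPart0

/-!
Interfaces for the bridge from a line bundle that is ample on the central fibre to global sections
on the total space.
-/

open AlgebraicGeometry CategoryTheory TopologicalSpace IsLocalRing Filter Topology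

noncomputable section

namespace Pool.Agent.MP_648617_ag.Amp

/-- The map from `O` to the function field of an integral scheme over `O`. -/
def toK {O : Type} [CommRing O] {W : Scheme.{0}} [IsIntegral W] (F : W ⟶ Spec (.of O)) :
    O →+* W.functionField :=
  ((Scheme.ΓSpecIso (.of O)).inv ≫ F.appTop ≫
    W.presheaf.germ ⊤ (genericPoint W) (Opens.mem_top _)).hom

/-- The local ring at `y` inside the function field. -/
def loc {W : Scheme.{0}} [IsIntegral W] (y : W) : Subring W.functionField :=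
  (algebraMap (W.presheaf.stalk y) W.functionField).range

/-- The rational functions `c y` are local generators of an invertible subsheaf of the constant
sheaf of rational functions. -/
def IsBundle {U : Scheme.{0}} [IsIntegral U] (c : U → U.functionField) : Prop :=
  (∀ y, c y ≠ 0) ∧ ∀ y, ∀ᶠ y' in 𝓝 y, c y' / c y ∈ loc y' ∧ c y / c y' ∈ loc y'

/-- The invertible sheaf is ample. -/
def IsAmple {U : Scheme.{0}} [IsIntegral U] (c : U → U.functionField) : Prop :=
  ∀ y : U, ∃ (k : ℕ) (σ : U.functionField) (N : U.Opens), 0 < k ∧ σ ≠ 0 ∧ y ∈ N ∧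
    IsAffineOpen N ∧ ∀ y', σ / c y' ^ k ∈ loc y' ∧ (y' ∈ N ↔ c y' ^ k / σ ∈ loc y')

/-- The additive Cousin problem for the invertible sheaf is always solvable. -/
def Cousin {U : Scheme.{0}} [IsIntegral U] (c : U → U.functionField) : Prop :=
  ∀ κ : U → U.functionField, (∀ y, ∀ᶠ y' in 𝓝 y, (κ y' - κ y) / c y' ∈ loc y') →
    ∃ κ₀, ∀ y, (κ₀ - κ y) / c y ∈ loc y

/-- Vanishing of `H¹` of the high powers of an ample sheaf on a modification of a surface germ. -/
def CousinAPI : Prop :=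
  ∀ (A : Type) [CommRing A] [Algebra ℂ A] [IsDomain A] [IsLocalRing A] [IsNoetherianRing A],
    ringKrullDim A ≤ 2 → maximalIdeal A ≠ ⊥ →
    ∀ (U : Scheme.{0}) [IsIntegral U] (f : U ⟶ Spec (.of A)) [IsProper f],
      Function.Injective (toK f) → (∀ r, ∃ a b : A, b ≠ 0 ∧ r * toK f b = toK f a) →
      ∀ c : U → U.functionField, IsBundle c → IsAmple c →
        ∃ k₀ : ℕ, ∀ k ≥ k₀, Cousin fun y => c y ^ k

/-- Sections lift from the central fibre when the Cousin problem there is solvable. Here `R` is the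
local ring of the total space at the generic point of the central fibre, `L` its residue field,
`Oy y` the local rings at the points of the central fibre, `C y` the local generators. -/
def LiftAPI : Prop :=
  ∀ (O : Type) [CommRing O] [IsLocalRing O] [IsNoetherianRing O]
    [IsAdicComplete (maximalIdeal O) O] (R : Type) [CommRing R] [IsDomain R] [IsLocalRing R]
    (L : Type) [Field L] (ι : O →+* R) (red : R →+* L) (s : O)
    (Y : Type) [TopologicalSpace Y] [CompactSpace Y]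
    (Oy : Y → Subring R) [∀ y, IsLocalRing (Oy y)] [∀ y, IsNoetherianRing (Oy y)] (C : Y → Rˣ),
    s ∈ maximalIdeal O → ι s ≠ 0 → Function.Surjective red → (∀ r, red r = 0 ↔ ι s ∣ r) →
    (∀ o, red (ι o) = 0 → s ∣ o) →
    (∀ r, ∃ a b : O, red (ι b) ≠ 0 ∧ r * ι b = ι a) →
    (∀ y o, ι o ∈ Oy y) → (∀ y r, ι s * r ∈ Oy y → r ∈ Oy y) →
    (∀ y, ∀ r ∈ Oy y, ∀ᶠ y' in 𝓝 y, r ∈ Oy y') →
    (∀ l, (∀ y, l ∈ (Oy y).map red) → ∃ o, red (ι o) = l) →
    (∀ y, ∀ᶠ y' in 𝓝 y, ((C y' / C y : Rˣ) : R) ∈ Oy y' ∧ ((C y / C y' : Rˣ) : R) ∈ Oy y') →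
    (∀ κ : Y → L, (∀ y, ∀ᶠ y' in 𝓝 y, (κ y' - κ y) / red (C y') ∈ (Oy y').map red) →
      ∃ κ₀, ∀ y, (κ₀ - κ y) / red (C y) ∈ (Oy y).map red) →
    ∀ σ : L, (∀ y, σ / red (C y) ∈ (Oy y).map red) →
      ∃ h : R, red h = σ ∧ ∀ y, h * (((C y)⁻¹ : Rˣ) : R) ∈ Oy y

/-- Algebraic Hartogs lemma. -/
def HartAPI : Prop :=
  ∀ (R : Type) [CommRing R] [IsDomain R] [IsNoetherianRing R] [IsIntegrallyClosed R] (a b : R),
    b ≠ 0 → (∀ p : Ideal R, p.IsPrime → p.height = 1 → ∃ t ∉ p, b ∣ t * a) → b ∣ a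

/-- Hartogs lemma on a normal scheme. -/
def HartSchAPI : Prop :=
  ∀ (W : Scheme.{0}) [IsIntegral W] [IsLocallyNoetherian W],
    (∀ y : W, IsIntegrallyClosed (W.presheaf.stalk y)) → ∀ (V : W.Opens), ∀ y ∈ V,
      ∀ r : W.functionField, (∀ z ∈ V, Order.coheight z = 1 → r ∈ loc z) → r ∈ loc y

end Pool.Agent.MP_648617_ag.Amp

end
end MrgPart0

-- ======== part 1: formerly Pool.Agent.MP_648617_ag.amp.Base
section MrgPart1

/-!
Rational functions on an integral scheme: local rings, sections, centres of valuations.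
-/

open AlgebraicGeometry CategoryTheory TopologicalSpace IsLocalRing Filter Topology

noncomputable section

namespace Pool.Agent.MP_648617_ag.Amp

variable {U : Scheme.{0}} [IsIntegral U]

theorem gen_mem {N : U.Opens} {y : U} (hy : y ∈ N) : genericPoint U ∈ N :=
  (genericPoint_specializes y).mem_open N.2 hy

theorem alg_germ {N : U.Opens} {y : U} (hy : y ∈ N) (t : Γ(U, N)) :
    algebraMap (U.presheaf.stalk y) U.functionField (U.presheaf.germ N y hy t) =
      U.presheaf.germ N (genericPoint U) (gen_mem hy) t :=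
  haveI : Nonempty N := ⟨⟨y, hy⟩⟩
  Scheme.algebraMap_germ_eq_germToFunctionField U hy t

theorem germ_mem_loc {N : U.Opens} {y : U} (hy : y ∈ N) (t : Γ(U, N)) :
    U.presheaf.germ N (genericPoint U) (gen_mem hy) t ∈ loc y :=
  ⟨_, alg_germ hy t⟩

theorem exists_germ {y : U} {r : U.functionField} (hr : r ∈ loc y) {N : U.Opens} (hy : y ∈ N) :
    ∃ (V : U.Opens) (h : y ∈ V) (t : Γ(U, V)), V ≤ N ∧
      U.presheaf.germ V (genericPoint U) (gen_mem h) t = r := by
  obtain ⟨u, rfl⟩ := hr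
  obtain ⟨V, h, t, rfl⟩ := U.presheaf.exists_germ_eq u
  refine ⟨V ⊓ N, ⟨h, hy⟩, U.presheaf.map (homOfLE inf_le_left).op t, inf_le_right, ?_⟩
  rw [alg_germ, TopCat.Presheaf.germ_res_apply]

/-- A function that is regular at a point is regular near it. -/
theorem loc_nhds {y : U} {r : U.functionField} (hr : r ∈ loc y) : ∀ᶠ y' in 𝓝 y, r ∈ loc y' := by
  obtain ⟨V, h, t, -, rfl⟩ := exists_germ hr (Opens.mem_top y)
  exact eventually_of_mem (V.2.mem_nhds h) fun y' hy' => germ_mem_loc hy' t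

theorem loc_le {z y : U} (h : z ⤳ y) : loc y ≤ loc z := fun _ hr => by
  obtain ⟨V, hV, t, -, rfl⟩ := exists_germ hr (Opens.mem_top y)
  exact germ_mem_loc (h.mem_open V.2 hV) t

/-- A function that is regular at all points of an open set is a section. -/
theorem exists_section {N : U.Opens} (h : genericPoint U ∈ N) {r : U.functionField}
    (hr : ∀ y ∈ N, r ∈ loc y) : ∃ t : Γ(U, N), U.presheaf.germ N (genericPoint U) h t = r := by
  choose V hV t hle ht using fun y : N => exists_germ (hr y y.2) y.2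
  obtain ⟨s, hs, -⟩ := U.sheaf.existsUnique_gluing' V N (fun y => homOfLE (hle y))
    (fun y hy => Opens.mem_iSup.2 ⟨⟨y, hy⟩, hV _⟩) t fun y y' => by
      apply germ_injective_of_isIntegral U (U := V y ⊓ V y') (genericPoint U)
        ⟨gen_mem (hV y), gen_mem (hV y')⟩
      exact ((U.presheaf.germ_res_apply _ _ _ _).trans (ht y)).trans
        ((U.presheaf.germ_res_apply _ _ _ _).trans (ht y')).symm
  refine ⟨s, ?_⟩
  rw [← ht ⟨_, h⟩, ← hs ⟨_, h⟩]
  exact (U.presheaf.germ_res_apply _ _ _ _).symm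

theorem alg_inj (y : U) :
    Function.Injective (algebraMap (U.presheaf.stalk y) U.functionField) :=
  IsFractionRing.injective _ _

/-- A germ is a unit when its inverse is regular. -/
theorem isUnit_iff (y : U) (u : U.presheaf.stalk y) :
    IsUnit u ↔ ∃ v ∈ loc y, algebraMap _ U.functionField u * v = 1 := by
  constructor
  · rintro ⟨u, rfl⟩
    exact ⟨_, ⟨↑u⁻¹, rfl⟩, by rw [← map_mul, u.mul_inv, map_one]⟩
  · rintro ⟨_, ⟨v, rfl⟩, e⟩
    exact .of_mul_eq_one v (alg_inj y (by rw [map_mul, e, map_one]))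

theorem mem_basicOpen_iff {N : U.Opens} {y : U} (hy : y ∈ N) (b : Γ(U, N)) :
    y ∈ U.basicOpen b ↔
      ∃ v ∈ loc y, U.presheaf.germ N (genericPoint U) (gen_mem hy) b * v = 1 := by
  rw [Scheme.mem_basicOpen U b y hy, isUnit_iff, alg_germ]

/-- On an affine open set the local rings are localisations of the ring of sections. -/
theorem loc_affine {N : U.Opens} (hN : IsAffineOpen N) {y : U} (hy : y ∈ N)
    (r : U.functionField) : r ∈ loc y ↔ ∃ a b : Γ(U, N), y ∈ U.basicOpen b ∧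
      r * U.presheaf.germ N (genericPoint U) (gen_mem hy) b =
        U.presheaf.germ N (genericPoint U) (gen_mem hy) a := by
  constructor
  · rintro ⟨u, rfl⟩
    let := U.presheaf.algebra_section_stalk ⟨y, hy⟩
    have := hN.isLocalization_stalk ⟨y, hy⟩
    obtain ⟨⟨a, b⟩, e⟩ := IsLocalization.surj (hN.primeIdealOf ⟨y, hy⟩).asIdeal.primeCompl u
    refine ⟨a, b, (Scheme.mem_basicOpen U _ y hy).2 (IsLocalization.map_units _ b), ?_⟩
    rw [← alg_germ hy, ← alg_germ hy, ← map_mul]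
    exact congrArg _ e
  · rintro ⟨a, b, hb, e⟩
    obtain ⟨v, hv, e'⟩ := (mem_basicOpen_iff hy b).1 hb
    rw [← mul_one r, ← e', ← mul_assoc, e]
    exact mul_mem (germ_mem_loc hy a) hv

variable {A : Type} [CommRing A] (f : U ⟶ Spec (.of A))

theorem toK_mem_loc (a : A) (y : U) : toK f a ∈ loc y :=
  germ_mem_loc (Opens.mem_top y) _

theorem spec_toK :
    U.fromSpecStalk (genericPoint U) ≫ f = Spec.map (CommRingCat.ofHom (toK f)) := by
  rw [toK, CommRingCat.ofHom_hom, Spec.map_comp, Spec.map_comp, Category.assoc,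
    ← Scheme.fromSpecStalk_toSpecΓ, Category.assoc, ← Scheme.toSpecΓ_naturality_assoc,
    ← SpecMap_ΓSpecIso_hom, ← Spec.map_comp, Iso.inv_hom_id, Spec.map_id, Category.comp_id]

/-- A valuation ring of the function field over the base has a centre. -/
theorem centre [UniversallyClosed f] (V : ValuationSubring U.functionField)
    (hV : ∀ a, toK f a ∈ V) : ∃ y : U, loc y ≤ V.toSubring ∧
      ∀ r ∈ loc y, r ≠ 0 → r⁻¹ ∈ V → r⁻¹ ∈ loc y := by
  have w : U.fromSpecStalk (genericPoint U) ≫ f =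
      Spec.map (CommRingCat.ofHom (algebraMap V U.functionField)) ≫
        Spec.map (CommRingCat.ofHom ((toK f).codRestrict V.toSubring hV)) := by
    rw [spec_toK, ← Spec.map_comp]
    rfl
  have hv : ValuativeCriterion.Existence f :=
    (UniversallyClosed.eq_valuativeCriterion.le _ _ f inferInstance).1
  obtain ⟨l, h1⟩ : ∃ l : Spec (CommRingCat.of V) ⟶ U,
      Spec.map (CommRingCat.ofHom (algebraMap V U.functionField)) ≫ l =
        U.fromSpecStalk (genericPoint U) :=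
    (hv { R := V, K := U.functionField, commSq := ⟨w⟩, .. }).exists_lift.elim
      fun l => ⟨l.l, l.fac_left⟩
  rw [← Scheme.Spec_stalkClosedPointTo_fromSpecStalk l,
    ← Scheme.SpecMap_stalkSpecializes_fromSpecStalk (genericPoint_specializes (l (closedPoint V))),
    ← Spec.map_comp_assoc, cancel_mono, Spec.map_inj] at h1
  have h2 : ∀ u, ((Scheme.stalkClosedPointTo l u : V) : U.functionField) =
      algebraMap _ U.functionField u := fun u => congrArg (fun g => g.hom u) h1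
  refine ⟨l (closedPoint V), ?_, ?_⟩
  · rintro _ ⟨u, rfl⟩
    rw [← h2]
    exact (Scheme.stalkClosedPointTo l u).2
  · rintro _ ⟨u, rfl⟩ h0 hi
    have hu : IsUnit (Scheme.stalkClosedPointTo l u) :=
      .of_mul_eq_one (⟨_, hi⟩ : V) (Subtype.ext (by
        change ((Scheme.stalkClosedPointTo l u : V) : U.functionField) * _ = 1
        rw [h2, mul_inv_cancel₀ h0]))
    obtain ⟨v, hv, e⟩ := (isUnit_iff _ u).1 (IsUnit.of_map (Scheme.stalkClosedPointTo l).hom u hu)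
    rwa [← eq_inv_of_mul_eq_one_right e]

theorem toK_eq (a : A) : toK f a = f.stalkMap (genericPoint U)
    ((Spec (.of A)).presheaf.germ ⊤ _ trivial ((Scheme.ΓSpecIso (.of A)).inv a)) := by
  rw [Scheme.Hom.germ_stalkMap_apply]
  rfl

/-- A birational morphism identifies the function field with the field of fractions. -/
theorem frac [IsDomain A] (V : (Spec (CommRingCat.of A)).Opens) (hV : V ≠ ⊥) [IsIso (f ∣_ V)] :
    Function.Injective (toK f) ∧ ∀ r, ∃ a b : A, b ≠ 0 ∧ r * toK f b = toK f a := by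
  obtain ⟨p, hp⟩ := (Opens.ne_bot_iff_nonempty V).1 hV
  obtain ⟨y, -⟩ := (f ∣_ V).surjective ⟨p, hp⟩
  have hη : genericPoint U ∈ f ⁻¹ᵁ V := gen_mem y.2
  have hi : IsIso (f.stalkMap (genericPoint U)) :=
    (MorphismProperty.isomorphisms _).arrow_mk_iso_iff
      (morphismRestrictStalkMap f V ⟨_, hη⟩) |>.1 (inferInstanceAs (IsIso _))
  have hb := ConcreteCategory.bijective_of_isIso (f.stalkMap (genericPoint U))
  let : Algebra A ((Spec (.of A)).presheaf.stalk (f (genericPoint U))) :=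
    StructureSheaf.stalkAlgebra A _
  have : IsLocalization.AtPrime ((Spec (.of A)).presheaf.stalk (f (genericPoint U)))
      (f (genericPoint U)).asIdeal := StructureSheaf.IsLocalization.to_stalk A _
  have e : ∀ a, toK f a = f.stalkMap (genericPoint U) (algebraMap A _ a) := toK_eq f
  refine ⟨fun a b h => IsLocalization.injective _
    (Ideal.primeCompl_le_nonZeroDivisors (f (genericPoint U)).asIdeal)
    (hb.1 ((e a).symm.trans (h.trans (e b)))), fun r => ?_⟩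
  obtain ⟨u, rfl⟩ := hb.2 r
  obtain ⟨⟨a, b⟩, h⟩ := IsLocalization.surj (f (genericPoint U)).asIdeal.primeCompl u
  refine ⟨a, b, fun h0 => b.2 (h0 ▸ zero_mem _), ?_⟩
  rw [e, e, ← map_mul]
  exact congrArg _ h

/-- Functions that are regular everywhere come from the base. -/
theorem global [IsIso f.appTop] {r : U.functionField} (hr : ∀ y, r ∈ loc y) :
    ∃ a, toK f a = r := by
  obtain ⟨t, rfl⟩ := exists_section (Opens.mem_top _) fun y _ => hr y
  obtain ⟨a, rfl⟩ :=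
    (ConcreteCategory.bijective_of_isIso ((Scheme.ΓSpecIso (.of A)).inv ≫ f.appTop)).2 t
  exact ⟨a, rfl⟩

theorem isDomain_base [IsIso f.appTop] : IsDomain A :=
  (ConcreteCategory.bijective_of_isIso
    ((Scheme.ΓSpecIso (.of A)).inv ≫ f.appTop)).1.isDomain _

end Pool.Agent.MP_648617_ag.Amp

end
end MrgPart1

-- ======== part 2: formerly Pool.Agent.MP_648617_ag.amp.Cousin
section MrgPart2

/-!
The Cousin problem for the high powers of an ample sheaf on a modification of a surface germ.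
First part: a space with local rings inside one field. Second part: two sections without common
zero and finiteness over the line. Third part: schemes.
-/

section A

set_option linter.unusedSectionVars false

open Filter Topology

namespace Pool.Agent.MP_648617_ag.Amp.Cous

variable {X : Type} {L : Type} [Field L]

/-- Units of a subring. -/
def Un (T : Subring L) (x : L) : Prop := x ≠ 0 ∧ x ∈ T ∧ x⁻¹ ∈ T

namespace Un

variable {T : Subring L} {x y : L}

theorem mul (hx : Un T x) (hy : Un T y) : Un T (x * y) :=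
  ⟨mul_ne_zero hx.1 hy.1, mul_mem hx.2.1 hy.2.1, by rw [mul_inv]; exact mul_mem hx.2.2 hy.2.2⟩

theorem inv (hx : Un T x) : Un T x⁻¹ := ⟨inv_ne_zero hx.1, hx.2.2, by rw [inv_inv]; exact hx.2.1⟩

theorem pow (hx : Un T x) (n : ℕ) : Un T (x ^ n) :=
  ⟨pow_ne_zero _ hx.1, pow_mem hx.2.1 n, by rw [← inv_pow]; exact pow_mem hx.2.2 n⟩

theorem left (hx : x ∈ T) (hy : y ∈ T) (h : Un T (x * y)) : Un T x := by
  obtain ⟨h1, h2⟩ := mul_ne_zero_iff.1 h.1
  refine ⟨h1, hx, ?_⟩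
  rw [show x⁻¹ = (x * y)⁻¹ * y by field_simp]
  exact mul_mem h.2.2 hy

theorem right (hx : x ∈ T) (hy : y ∈ T) (h : Un T (x * y)) : Un T y :=
  left hy hx (by rwa [mul_comm])

theorem one : Un T 1 := ⟨one_ne_zero, one_mem _, by rw [inv_one]; exact one_mem _⟩

theorem cancel (hx : Un T x) (h : x * y ∈ T) : y ∈ T := by
  rw [← inv_mul_cancel_left₀ hx.1 y]
  exact mul_mem hx.2.2 h

theorem mono {T' : Subring L} (h : T ≤ T') (hx : Un T x) : Un T' x := ⟨hx.1, h hx.2.1, h hx.2.2⟩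

end Un

/-- The functions that are regular on `W`. -/
def Gam (R : X → Subring L) (W : Set X) : Subring L := ⨅ u ∈ W, R u

theorem mem_Gam {R : X → Subring L} {W : Set X} {x : L} : x ∈ Gam R W ↔ ∀ u ∈ W, x ∈ R u := by
  simp [Gam, Subring.mem_iInf]

/-- Local subrings. -/
def Lc (T : Subring L) : Prop := ∀ x ∈ T, ∀ y ∈ T, Un T (x + y) → Un T x ∨ Un T y

/-- The elements of `B` that are not units of the local ring `T`. -/
def nu (B : Subring L) {T : Subring L} (hT : Lc T) (h : B ≤ T) : Ideal B where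
  carrier := {b | ¬Un T b}
  add_mem' {a b} ha hb e := (hT a (h a.2) b (h b.2) e).elim ha hb
  zero_mem' e := e.1 rfl
  smul_mem' a b hb e := hb (Un.right (h a.2) (h b.2) e)

theorem nu_prime (B : Subring L) {T : Subring L} (hT : Lc T) (h : B ≤ T) : (nu B hT h).IsPrime :=
  ⟨fun e => ((Ideal.eq_top_iff_one _).1 e) Un.one, fun {a b} e => by
    by_contra! h'
    exact e ((not_not.1 h'.1).mul (not_not.1 h'.2))⟩

theorem exists_un {B T : Subring L} (hT : Lc T) (h : B ≤ T) {s : Set B} (hs : Ideal.span s = ⊤) :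
    ∃ b ∈ s, Un T b := by
  by_contra! h'
  exact (nu_prime B hT h).1 (top_unique (hs ▸ Ideal.span_le.2 h'))

variable [TopologicalSpace X]

/-- `W` is the spectrum of a finitely generated algebra over `A`. -/
structure Chart (A : Subring L) (R : X → Subring L) (W : Set X) : Prop where
  pt : ∀ p : Ideal (Gam R W), p.IsPrime → ∃ v ∈ W, (∀ b : Gam R W, b ∈ p ↔ ¬Un (R v) b) ∧
    ∀ x ∈ R v, ∃ s : Gam R W, s ∉ p ∧ s * x ∈ Gam R W
  basis : ∀ v ∈ W, ∀ N ∈ 𝓝 v, ∃ d ∈ Gam R W, Un (R v) d ∧ ∀ w ∈ W, Un (R w) d → w ∈ N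
  ft : ∃ S : Set L, S.Finite ∧ Gam R W = Subring.closure (A ∪ S)

theorem Chart.ext {A : Subring L} {R : X → Subring L} {W : Set X} (h : Chart A R W) {d x : L}
    (hd : d ∈ Gam R W) (hx : ∀ w ∈ W, Un (R w) d → x ∈ R w) : ∃ M : ℕ, d ^ M * x ∈ Gam R W := by
  let I : Ideal (Gam R W) :=
    { carrier := {b | b * x ∈ Gam R W}
      add_mem' := fun {a b} ha hb => by
        simpa only [Set.mem_ofPred_eq, Subring.coe_add, add_mul] using add_mem ha hb
      zero_mem' := by simp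
      smul_mem' := fun a b hb => by
        simpa only [Set.mem_ofPred_eq, smul_eq_mul, Subring.coe_mul, mul_assoc]
          using mul_mem a.2 hb }
  have : (⟨d, hd⟩ : Gam R W) ∈ I.radical := by
    rw [Ideal.radical_eq_sInf, Submodule.mem_sInf]
    rintro p ⟨hI, hp⟩
    obtain ⟨v, hv, h1, h2⟩ := h.pt p hp
    by_contra hd'
    obtain ⟨s, hs, e⟩ := h2 x (hx v hv (not_not.1 (mt (h1 ⟨d, hd⟩).2 hd')))
    exact hs (hI e)
  exact this

/-- Local generators of an invertible sheaf. -/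
def Bun (R : X → Subring L) (γ : X → L) : Prop := ∀ u, ∀ᶠ w in 𝓝 u, Un (R w) (γ w / γ u)

/-- The locus where a section generates. -/
def D (R : X → Subring L) (c : X → L) (k : ℕ) (σ : L) : Set X := {u | Un (R u) (σ / c u ^ k)}

/-- A proper model of `L` over `A` with an ample sheaf `c` and sections `e` of it. -/
structure Pol (A : Subring L) (R : X → Subring L) (c : X → L) {ι : Type} (e : ι → L) : Prop where
  lc : ∀ u, Lc (R u)
  le : ∀ u, A ≤ R u
  nh : ∀ u, ∀ x ∈ R u, ∀ᶠ w in 𝓝 u, x ∈ R w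
  centre : ∀ V : ValuationSubring L, A ≤ V.toSubring →
    ∃ u, R u ≤ V.toSubring ∧ ∀ x ∈ R u, x⁻¹ ∈ V → x⁻¹ ∈ R u
  bun : Bun R c
  sec : ∀ a u, e a / c u ^ 1 ∈ R u
  chart : ∀ a, Chart A R (D R c 1 (e a))
  cover : ∀ u, ∃ a, u ∈ D R c 1 (e a)

variable {A : Subring L} {R : X → Subring L} {c γ : X → L} {ι : Type} {e : ι → L}

theorem Bun.ne (h : Bun R γ) (u : X) : γ u ≠ 0 :=
  (div_ne_zero_iff.1 (h u).self_of_nhds.1).1

theorem Bun.mul (h : Bun R γ) (h' : Bun R c) : Bun R fun u => γ u * c u := fun u =>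
  ((h u).and (h' u)).mono fun w hw => by
    rw [mul_div_mul_comm]
    exact hw.1.mul hw.2

theorem Bun.pow (h : Bun R γ) (n : ℕ) : Bun R fun u => γ u ^ n := fun u =>
  (h u).mono fun w hw => by
    rw [← div_pow]
    exact hw.pow n

theorem un_nhds (nh : ∀ u, ∀ x ∈ R u, ∀ᶠ w in 𝓝 u, x ∈ R w) (h : Bun R γ) {u : X} {σ : L}
    (hu : Un (R u) (σ / γ u)) : ∀ᶠ w in 𝓝 u, Un (R w) (σ / γ w) := by
  filter_upwards [nh u _ hu.2.1, nh u _ hu.2.2, h u] with w h1 h2 h3
  have := Un.mul ⟨hu.1, h1, h2⟩ h3.inv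
  rwa [inv_div, div_mul_div_cancel₀ (h.ne u)] at this

theorem ratio {k : ℕ} {σ s : L} (hσ : ∀ u, σ / c u ^ k ∈ R u) :
    σ / s ^ k ∈ Gam R (D R c 1 s) ∧
      ∀ u ∈ D R c 1 s, σ / s ^ k * (s / c u ^ 1) ^ k = σ / c u ^ k := by
  have h : ∀ u ∈ D R c 1 s, σ / s ^ k * (s / c u ^ 1) ^ k = σ / c u ^ k := fun u hu => by
    rw [pow_one, div_pow, div_mul_div_cancel₀ (pow_ne_zero _ (div_ne_zero_iff.1 hu.1).1)]
  refine ⟨mem_Gam.2 fun u hu => (Un.pow hu k).cancel ?_, h⟩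
  rw [mul_comm, h u hu]
  exact hσ u

theorem ev_pow {T : X → Subring L} {W : Set X} {d x : X → L} (hd : ∀ u ∈ W, d u ∈ T u) {M : ℕ}
    (h : ∀ u ∈ W, d u ^ M * x u ∈ T u) : ∀ᶠ M in atTop, ∀ u ∈ W, d u ^ M * x u ∈ T u := by
  filter_upwards [eventually_ge_atTop M] with n hn u hu
  obtain ⟨j, rfl⟩ := Nat.exists_eq_add_of_le' hn
  rw [pow_add, mul_assoc]
  exact mul_mem (pow_mem (hd u hu) j) (h u hu)

variable [Finite ι]

theorem Pol.ext0 (H : Pol A R c e) {k : ℕ} {σ x : L} (hσ : ∀ u, σ / c u ^ k ∈ R u)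
    (hx : ∀ u ∈ D R c k σ, x ∈ R u) : ∀ᶠ M in atTop, ∀ u, (σ / c u ^ k) ^ M * x ∈ R u := by
  have : ∀ a, ∀ᶠ M in atTop, ∀ u ∈ D R c 1 (e a), (σ / c u ^ k) ^ M * x ∈ R u := fun a => by
    obtain ⟨h1, h2⟩ := ratio (s := e a) hσ
    obtain ⟨M, hM⟩ := (H.chart a).ext (x := x) h1 fun w hw hd => hx w (by
      have := hd.mul (Un.pow hw k)
      rwa [h2 w hw] at this)
    refine ev_pow (x := fun _ => x) (M := M) (fun u _ => hσ u) fun u hu => ?_
    rw [← h2 u hu, mul_pow, mul_right_comm]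
    exact mul_mem (mem_Gam.1 hM u hu) (pow_mem (pow_mem hu.2.1 k) M)
  filter_upwards [eventually_all.2 this] with M hM u
  obtain ⟨a, ha⟩ := H.cover u
  exact hM a u ha

theorem Pol.basis (H : Pol A R c e) (u : X) {N : Set X} (hN : N ∈ 𝓝 u) :
    ∃ k σ, (∀ w, σ / c w ^ k ∈ R w) ∧ u ∈ D R c k σ ∧ D R c k σ ⊆ N := by
  obtain ⟨a, ha⟩ := H.cover u
  obtain ⟨d, hd, h1, h2⟩ := (H.chart a).basis u ha N hN
  obtain ⟨M, hM⟩ := (H.ext0 (H.sec a) (mem_Gam.1 hd)).exists
  have e1 : ∀ w, e a ^ (M + 1) * d / c w ^ (M + 1) =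
      (e a / c w ^ 1) ^ M * d * (e a / c w ^ 1) := fun w => by
    rw [pow_one, div_pow, pow_succ, pow_succ]
    ring
  refine ⟨M + 1, e a ^ (M + 1) * d, fun w => e1 w ▸ mul_mem (hM w) (H.sec a w), ?_, fun w hw => ?_⟩
  · change Un _ _
    rw [e1]
    exact ((Un.pow ha M).mul h1).mul ha
  · change Un _ _ at hw
    rw [e1] at hw
    have h3 := hw.right (hM w) (H.sec a w)
    exact h2 w h3 ((hw.left (hM w) (H.sec a w)).right (pow_mem (H.sec a w) M) (mem_Gam.1 hd w h3))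

theorem sec_mul {k l : ℕ} {σ τ : L} (u : X) :
    σ * τ / c u ^ (k + l) = σ / c u ^ k * (τ / c u ^ l) := by
  rw [pow_add, mul_div_mul_comm]

theorem Pol.ext [CompactSpace X] (H : Pol A R c e) (hγ : Bun R γ) {k : ℕ} {σ x : L}
    (hσ : ∀ u, σ / c u ^ k ∈ R u) (hx : ∀ u ∈ D R c k σ, x / γ u ∈ R u) :
    ∀ᶠ M in atTop, ∀ u, (σ / c u ^ k) ^ M * (x / γ u) ∈ R u := by
  choose l τ h1 h2 h3 using fun u => H.basis u (hγ u)
  obtain ⟨t, ht⟩ := CompactSpace.elim_nhds_subcover (fun u => D R c (l u) (τ u)) fun u =>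
    un_nhds H.nh (H.bun.pow (l u)) (h2 u)
  have : ∀ v, ∀ᶠ M in atTop, ∀ u ∈ D R c (l v) (τ v), (σ / c u ^ k) ^ M * (x / γ u) ∈ R u := by
    intro v
    have h0 := H.ext0 (k := k + l v) (σ := σ * τ v) (x := x / γ v)
      (fun u => sec_mul (c := c) u ▸ mul_mem (hσ u) (h1 v u)) fun u hu => by
        change Un _ _ at hu
        rw [sec_mul] at hu
        rw [← div_mul_div_cancel₀ (hγ.ne u)]
        exact mul_mem (hx u (hu.left (hσ u) (h1 v u))) (h3 v (hu.right (hσ u) (h1 v u))).2.1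
    filter_upwards [h0] with M hM u hu
    have h4 := hM u
    rw [sec_mul, mul_pow, mul_right_comm, mul_comm] at h4
    refine (h3 v hu).cancel ?_
    rw [mul_left_comm, mul_comm (γ u / γ v), div_mul_div_cancel₀ (hγ.ne u)]
    exact (Un.pow hu M).cancel h4
  filter_upwards [(eventually_all_finset t).2 fun v _ => this v] with M hM u
  obtain ⟨v, hv, hu⟩ := Set.mem_iUnion₂.1 (ht.ge (Set.mem_univ u))
  exact hM v hv u hu

theorem Pol.dom (H : Pol A R c e) {s : L} (hs : ∀ u, s / c u ^ 1 ∈ R u) (h0 : s ≠ 0)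
    {V : ValuationSubring L} {u : X} (h1 : R u ≤ V.toSubring)
    (h2 : ∀ x ∈ R u, x⁻¹ ∈ V → x⁻¹ ∈ R u) {s' : L} (hu : u ∈ D R c 1 s') (h : s' / s ∈ V) :
    u ∈ D R c 1 s := by
  refine ⟨div_ne_zero h0 (pow_ne_zero _ (H.bun.ne u)), hs u, h2 _ (hs u) ?_⟩
  have h3 := (div_ne_zero_iff.1 hu.1).1
  rw [inv_div, ← div_mul_div_cancel₀ h3, ← inv_div s']
  exact mul_mem (h1 hu.2.2) h

theorem Pol.span (H : Pol A R c e) {s : L} (hs : ∀ u, s / c u ^ 1 ∈ R u) (h0 : s ≠ 0)
    {S : Set (Gam R (D R c 1 s))} (hS : ∀ u ∈ D R c 1 s, ∃ b ∈ S, Un (R u) b) :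
    Ideal.span S = ⊤ := by
  by_contra h
  obtain ⟨V, h1, h2⟩ := Ideal.image_subset_nonunits_valuationSubring _ h
  obtain ⟨u, h3, h4⟩ := H.centre V fun x hx => h1 (mem_Gam.2 fun u _ => H.le u hx)
  obtain ⟨a, ha⟩ := H.cover u
  have h5 := h1 (ratio (s := s) (H.sec a)).1
  rw [pow_one] at h5
  obtain ⟨b, hb, h6⟩ := hS u (H.dom hs h0 h3 h4 ha h5)
  have h7 : (b : L) ∈ V.nonunits := h2 ⟨b, Ideal.subset_span hb, rfl⟩
  rw [← inv_inv (b : L), V.inv_mem_nonunits_iff] at h7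
  exact h7.elim (inv_ne_zero h6.1) fun h => h (h3 h6.2.2)

theorem Pol.cousin [CompactSpace X] (H : Pol A R c e) (hγ : Bun R γ) {s : L}
    (hs : ∀ u, s / c u ^ 1 ∈ R u) (h0 : s ≠ 0) {κ : X → L}
    (hκ : ∀ u, ∀ᶠ w in 𝓝 u, (κ w - κ u) / γ w ∈ R w) :
    ∃ g, ∀ u ∈ D R c 1 s, (g - κ u) / γ u ∈ R u := by
  choose l τ h1 h2 h3 using fun u => H.basis u (hκ u)
  let t : X → Gam R (D R c 1 s) := fun u => ⟨τ u / s ^ l u, (ratio (h1 u)).1⟩
  have ht : ∀ v, ∀ u ∈ D R c 1 s, Un (R u) (t v) ↔ u ∈ D R c (l v) (τ v) := fun v u hu => by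
    change _ ↔ Un _ _
    rw [← (ratio (h1 v)).2 u hu]
    exact ⟨fun h => h.mul (Un.pow hu _), Un.left (mem_Gam.1 (t v).2 u hu) (pow_mem hu.2.1 _)⟩
  obtain ⟨S, hS, hsp⟩ := (Ideal.span_eq_top_iff_finite _).1 (H.span hs h0 (S := Set.range t)
    fun u hu => ⟨t u, ⟨u, rfl⟩, (ht u u hu).2 (h2 u)⟩)
  choose v hv using fun i : S => hS i.2
  have key : ∀ i j : S, ∀ᶠ M in atTop, ∀ u ∈ D R c 1 s,
      ((i : L) * j) ^ M * ((κ (v j) - κ (v i)) / γ u) ∈ R u := fun i j => by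
    have h8 := H.ext hγ (k := l (v i) + l (v j)) (σ := τ (v i) * τ (v j))
      (x := κ (v j) - κ (v i)) (fun u => sec_mul (c := c) u ▸ mul_mem (h1 _ u) (h1 _ u))
      fun u hu => by
        change Un _ _ at hu
        rw [sec_mul] at hu
        rw [← sub_sub_sub_cancel_left _ _ (κ u), sub_div]
        exact sub_mem (h3 _ (hu.left (h1 _ u) (h1 _ u))) (h3 _ (hu.right (h1 _ u) (h1 _ u)))
    filter_upwards [h8] with M hM u hu
    have h4 := hM u
    rw [sec_mul, ← (ratio (h1 (v i))).2 u hu, ← (ratio (h1 (v j))).2 u hu,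
      mul_mul_mul_comm, mul_pow, mul_right_comm, mul_comm] at h4
    rw [← hv i, ← hv j]
    exact (((Un.pow hu _).mul (Un.pow hu _)).pow M).cancel h4
  obtain ⟨M, hM⟩ := (eventually_all.2 fun i => eventually_all.2 (key i)).exists
  have h5 := (Ideal.eq_top_iff_one _).1 (Ideal.span_pow_eq_top _ hsp M)
  rw [Set.image_eq_range] at h5
  obtain ⟨β, hβ⟩ := Ideal.mem_span_range_iff_exists_fun.1 h5
  have hβ' : ∑ j : S, (β j : L) * (j : L) ^ M = 1 := by exact_mod_cast congrArg Subtype.val hβ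
  refine ⟨∑ j : S, β j * (j : L) ^ M * κ (v j), fun u hu => ?_⟩
  obtain ⟨i, hi, h6⟩ := exists_un (H.lc u) (fun x hx => mem_Gam.1 hx u hu) hsp
  have h7 := h3 _ ((ht (v ⟨i, hi⟩) u hu).1 (by rwa [hv]))
  have e1 : ∑ j : S, β j * (j : L) ^ M * κ (v j) - κ u =
      ∑ j : S, β j * (j : L) ^ M * (κ (v j) - κ (v ⟨i, hi⟩)) - (κ u - κ (v ⟨i, hi⟩)) := by
    simp only [mul_sub, Finset.sum_sub_distrib, ← Finset.sum_mul, hβ']
    ring
  rw [e1, sub_div, Finset.sum_div]
  refine sub_mem (sum_mem fun j _ => ?_) h7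
  rw [mul_div_assoc, mul_assoc]
  refine mul_mem (mem_Gam.1 (β j).2 u hu) ((h6.pow M).cancel ?_)
  rw [← mul_assoc, ← mul_pow]
  exact hM ⟨i, hi⟩ j u hu

end Pool.Agent.MP_648617_ag.Amp.Cous

end A

section B

set_option linter.unusedSectionVars false

open Filter Topology Polynomial

namespace Pool.Agent.MP_648617_ag.Amp.Cous

variable {X : Type} {L : Type} [Field L] [TopologicalSpace X]
  {A : Subring L} {R : X → Subring L} {c γ : X → L} {ι : Type} {e : ι → L} [Finite ι]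

theorem Pol.move (H : Pol A R c e) {s s' x : L} (hs : ∀ u, s / c u ^ 1 ∈ R u)
    (hx : x ∈ Gam R (D R c 1 s)) : ∃ M : ℕ, (s / s') ^ M * x ∈ Gam R (D R c 1 s') := by
  obtain ⟨M, hM⟩ := (H.ext0 hs (mem_Gam.1 hx)).exists
  refine ⟨M, mem_Gam.2 fun u hu => (Un.pow hu M).cancel ?_⟩
  have := (ratio (s := s') hs).2 u hu
  rw [pow_one, pow_one] at this
  rw [← mul_assoc, ← mul_pow, mul_comm (s' / _), this]
  exact hM u

theorem Pol.ft (H : Pol A R c e) {s : L} (hs : ∀ u, s / c u ^ 1 ∈ R u) (h0 : s ≠ 0) :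
    ∃ S : Set L, S.Finite ∧ Gam R (D R c 1 s) = Subring.closure (A ∪ S) := by
  have := Fintype.ofFinite ι
  let t : ι → Gam R (D R c 1 s) := fun a => ⟨e a / s, by simpa using (ratio (s := s) (H.sec a)).1⟩
  have hsp := H.span hs h0 (S := Set.range t) fun u hu => by
    obtain ⟨a, ha⟩ := H.cover u
    refine ⟨t a, ⟨a, rfl⟩, Un.left (mem_Gam.1 (t a).2 u hu) hu.2.1 ?_⟩
    change Un _ (e a / s * _)
    rwa [div_mul_div_cancel₀ h0]
  obtain ⟨β, hβ⟩ := Ideal.mem_span_range_iff_exists_fun.1 ((Ideal.eq_top_iff_one _).1 hsp)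
  choose S hS hS' using fun a => (H.chart a).ft
  choose M hM using fun a (g : S a) => H.move (s' := s) (H.sec a) (x := g)
    (hS' a ▸ Subring.subset_closure (Or.inr g.2))
  have := fun a => (hS a).to_subtype
  let T : Set L := (Set.range (fun a => (t a : L)) ∪ Set.range fun a => (β a : L)) ∪
    ⋃ a, Set.range fun g : S a => (e a / s) ^ M a g * g
  refine ⟨T, ((Set.finite_range _).union (Set.finite_range _)).union
    (Set.finite_iUnion fun a => Set.finite_range _), le_antisymm (fun x hx => ?_) ?_⟩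
  · set C := Subring.closure (A ∪ T)
    have ht : ∀ a, e a / s ∈ C := fun a => Subring.subset_closure (.inr (.inl (.inl ⟨a, rfl⟩)))
    have hb : ∀ a, (β a : L) ∈ C := fun a => Subring.subset_closure (.inr (.inl (.inr ⟨a, rfl⟩)))
    have h1 : ∀ a, ∀ b ∈ Subring.closure (A ∪ S a), ∃ n : ℕ, (e a / s) ^ n * b ∈ C := by
      intro a b hb
      induction hb using Subring.closure_induction with
      | mem x hx =>
        rcases hx with hx | hx
        · exact ⟨0, by rw [pow_zero, one_mul]; exact Subring.subset_closure (Or.inl hx)⟩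
        · exact ⟨M a ⟨x, hx⟩, Subring.subset_closure
            (.inr (.inr (Set.mem_iUnion.2 ⟨a, ⟨x, hx⟩, rfl⟩)))⟩
      | zero => exact ⟨0, by simp⟩
      | one => exact ⟨0, by simp⟩
      | add x y _ _ hx hy =>
        obtain ⟨n, hn⟩ := hx
        obtain ⟨m, hm⟩ := hy
        refine ⟨n + m, ?_⟩
        rw [show (e a / s) ^ (n + m) * (x + y) = (e a / s) ^ m * ((e a / s) ^ n * x) +
          (e a / s) ^ n * ((e a / s) ^ m * y) by ring]
        exact add_mem (mul_mem (pow_mem (ht a) m) hn) (mul_mem (pow_mem (ht a) n) hm)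
      | neg x _ hx =>
        obtain ⟨n, hn⟩ := hx
        exact ⟨n, by rw [mul_neg]; exact neg_mem hn⟩
      | mul x y _ _ hx hy =>
        obtain ⟨n, hn⟩ := hx
        obtain ⟨m, hm⟩ := hy
        exact ⟨n + m, by rw [pow_add, mul_mul_mul_comm]; exact mul_mem hn hm⟩
    let I : Ideal C :=
      { carrier := {b | b * x ∈ C}
        add_mem' := fun {a b} ha hb => by
          simpa only [Set.mem_ofPred_eq, Subring.coe_add, add_mul] using add_mem ha hb
        zero_mem' := by simp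
        smul_mem' := fun a b hb => by
          simpa only [Set.mem_ofPred_eq, smul_eq_mul, Subring.coe_mul, mul_assoc]
            using mul_mem a.2 hb }
    have h2 : ∀ a, (⟨_, ht a⟩ : C) ∈ I.radical := fun a => by
      by_cases ha : e a = 0
      · exact ⟨1, show _ * x ∈ C by simp [ha]⟩
      obtain ⟨m, hm⟩ := H.move (s' := e a) hs hx
      obtain ⟨n, hn⟩ := h1 a _ (hS' a ▸ hm)
      refine ⟨n, show (e a / s) ^ n * x ∈ C from ?_⟩
      have := mul_mem (pow_mem (ht a) m) hn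
      rwa [mul_left_comm, ← mul_assoc _ _ x, ← mul_pow, div_mul_div_cancel₀ h0, div_self ha,
        one_pow, one_mul] at this
    have h3 : (1 : C) ∈ I.radical := by
      have : (1 : C) = ∑ a, ⟨_, hb a⟩ * ⟨_, ht a⟩ := Subtype.ext (by
        have := congrArg Subtype.val hβ
        push_cast at this ⊢
        exact this.symm)
      rw [this]
      exact sum_mem fun a _ => Ideal.mul_mem_left _ _ (h2 a)
    obtain ⟨n, hn⟩ := h3
    rw [one_pow] at hn
    simpa using (show ((1 : C) : L) * x ∈ C from hn)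
  · rw [Subring.closure_le]
    rintro x (hx | (⟨a, rfl⟩ | ⟨a, rfl⟩) | hx)
    · exact mem_Gam.2 fun u _ => H.le u hx
    · exact (t a).2
    · exact (β a).2
    · obtain ⟨a, g, rfl⟩ := Set.mem_iUnion.1 hx
      exact hM a g

/-- The ring generated by one more element. -/
noncomputable def adj (B : Subring L) (z : L) : Subring L := (eval₂RingHom B.subtype z).range

theorem le_adj (B : Subring L) (z : L) : B ≤ adj B z := fun x hx => ⟨C ⟨x, hx⟩, by simp⟩

theorem mem_adj (B : Subring L) (z : L) : z ∈ adj B z := ⟨Polynomial.X, by simp⟩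

theorem adj_le {B T : Subring L} {z : L} (h : B ≤ T) (hz : z ∈ T) : adj B z ≤ T := by
  rintro _ ⟨p, rfl⟩
  induction p using Polynomial.induction_on' with
  | add p q hp hq => rw [map_add]; exact add_mem hp hq
  | monomial n a => simpa using mul_mem (h a.2) (pow_mem hz n)

theorem adj_split {B : Subring L} {z r : L} (h : r ∈ adj B z) :
    ∃ a ∈ B, ∃ r' ∈ adj B z, r = a + z * r' := by
  obtain ⟨p, rfl⟩ := h
  refine ⟨p.coeff 0, (p.coeff 0).2, _, ⟨p.divX, rfl⟩, ?_⟩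
  conv_lhs => rw [← p.X_mul_divX_add, map_add, map_mul]
  simp [add_comm]

instance (B : Subring L) [IsNoetherianRing B] (z : L) : IsNoetherianRing (adj B z) :=
  isNoetherianRing_range _

theorem dim_adj (B : Subring L) [IsNoetherianRing B] {z : L} (hz : ∃ a ∈ B, ∃ b ∈ B, b ≠ 0 ∧ z * b = a)
    (h : ringKrullDim B ≤ 2) : ringKrullDim (adj B z) ≤ 2 := by
  obtain ⟨a, ha, b, hb, h0, hz⟩ := hz
  have h1 := ringKrullDim_succ_le_of_surjective (eval₂RingHom B.subtype z).rangeRestrict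
    (RingHom.rangeRestrict_surjective _) (r := C ⟨b, hb⟩ * Polynomial.X - C ⟨a, ha⟩)
    (mem_nonZeroDivisors_of_ne_zero fun e => h0 (by
      simpa [Subtype.ext_iff, coeff_C] using congrArg (coeff · 1) e))
    (Subtype.ext (by simp [mul_comm b z, hz]))
  rw [Polynomial.ringKrullDim_of_isNoetherianRing] at h1
  exact (ENat.WithBot.add_le_add_one_right_iff.1 h1).trans h

theorem dim_closure [IsNoetherianRing A] (h : ringKrullDim A ≤ 2)
    (hf : ∀ z : L, ∃ a ∈ A, ∃ b ∈ A, b ≠ 0 ∧ z * b = a) {S : Set L} (hS : S.Finite) :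
    IsNoetherianRing (Subring.closure (A ∪ S : Set L)) ∧
      ringKrullDim (Subring.closure (A ∪ S : Set L)) ≤ 2 := by
  induction S, hS using Set.Finite.induction_on with
  | empty =>
    rw [Set.union_empty, Subring.closure_eq]
    exact ⟨‹_›, h⟩
  | @insert z S _ _ ih =>
    have hA : ∀ S : Set L, A ≤ Subring.closure (A ∪ S : Set L) := fun S x hx =>
      Subring.subset_closure (Or.inl hx)
    have e : Subring.closure (A ∪ insert z S : Set L) = adj (Subring.closure (A ∪ S : Set L)) z := by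
      refine le_antisymm (Subring.closure_le.2 ?_) (adj_le (Subring.closure_mono
        (Set.union_subset_union_right _ (Set.subset_insert _ _)))
        (Subring.subset_closure (Or.inr (Set.mem_insert _ _))))
      rintro x (hx | rfl | hx)
      · exact le_adj _ _ (hA S hx)
      · exact mem_adj _ _
      · exact le_adj _ _ (Subring.subset_closure (Or.inr hx))
    obtain ⟨h1, h2⟩ := ih
    obtain ⟨a, ha, b, hb, h3⟩ := hf z
    rw [e]
    exact ⟨inferInstance, dim_adj _ ⟨a, hA S ha, b, hA S hb, h3⟩ h2⟩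

theorem no_chain {B : Type} [CommRing B] [IsDomain B] (h : ringKrullDim B ≤ 2) {p q r : Ideal B}
    [p.IsPrime] [q.IsPrime] [r.IsPrime] (h0 : p ≠ ⊥) (h1 : p < q) (h2 : q < r) : False := by
  have a1 := Ideal.height_add_one_le_of_lt_of_isPrime (bot_lt_iff_ne_bot.2 h0)
  have a2 := Ideal.height_add_one_le_of_lt_of_isPrime h1
  have a3 := Ideal.height_add_one_le_of_lt_of_isPrime h2
  have a4 := (Ideal.height_le_ringKrullDim_of_isPrime (I := r)).trans h
  rw [Ideal.height_bot] at a1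
  have a5 : ((0 + 1 + 1 + 1 : ℕ∞) : WithBot ℕ∞) ≤ 2 :=
    (WithBot.coe_le_coe.2 ((add_le_add_left ((add_le_add_left a1 1).trans a2) 1).trans a3)).trans a4
  exact absurd a5 (by decide)

/-- Sections of `γ` over `W` as a module. -/
def secs (R : X → Subring L) (γ : X → L) (W : Set X) {B : Subring L} (h : B ≤ Gam R W) :
    Submodule B L where
  carrier := {x | ∀ u ∈ W, x / γ u ∈ R u}
  add_mem' ha hb u hu := by rw [add_div]; exact add_mem (ha u hu) (hb u hu)
  zero_mem' u _ := by simp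
  smul_mem' a x hx u hu := by
    rw [Subring.smul_def, smul_eq_mul, mul_div_assoc]
    exact mul_mem (mem_Gam.1 (h a.2) u hu) (hx u hu)

variable [CompactSpace X]

theorem Pol.fg [IsNoetherianRing A] (H : Pol A R c e) (hγ : Bun R γ)
    (hf : ∀ z : L, ∃ a ∈ A, ∃ b ∈ A, b ≠ 0 ∧ z * b = a) {s s' : L}
    (hs : ∀ u, s / c u ^ 1 ∈ R u) (h0 : s ≠ 0) (hc : ∀ u, u ∈ D R c 1 s ∨ u ∈ D R c 1 s')
    (hB : adj A (s' / s) ≤ Gam R (D R c 1 s)) : (secs R γ _ hB).FG := by
  obtain ⟨S, hS, hS'⟩ := H.ft hs h0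
  have hint : ∀ x ∈ Gam R (D R c 1 s), IsIntegral (adj A (s' / s)) x := fun x hx => by
    have : x ∈ (integralClosure (Subring.closure (adj A (s' / s) : Set L)) L).toSubring := by
      rw [← iInf_valuationSubring_superset, Subring.mem_iInf]
      rintro ⟨V, hV⟩
      obtain ⟨u, h1, h2⟩ := H.centre V fun x hx => hV (le_adj _ _ hx)
      exact h1 (mem_Gam.1 hx u ((hc u).elim id fun hu => H.dom hs h0 h1 h2 hu (hV (mem_adj _ _))))
    have h3 : IsIntegral (Subring.closure (adj A (s' / s) : Set L)) x := this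
    rwa [Subring.closure_eq] at h3
  have hN := isNoetherian_of_fg_of_noetherian _ (fg_adjoin_of_finite hS fun x hx =>
    hint x (hS' ▸ Subring.subset_closure (Or.inr hx)))
  obtain ⟨t, ht⟩ := CompactSpace.elim_nhds_subcover _ hγ
  choose a ha b hb h1 h2 using fun u => hf (γ u)
  have hb0 : ∏ v ∈ t, b v ≠ 0 := Finset.prod_ne_zero_iff.2 fun v _ => h1 v
  refine Submodule.fg_of_fg_map_injective (LinearMap.mulLeft (adj A (s' / s)) (∏ v ∈ t, b v))
    (mul_right_injective₀ hb0) (isNoetherian_submodule.1 hN _ ?_)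
  rintro _ ⟨x, hx, rfl⟩
  have h3 : (∏ v ∈ t, b v) * x ∈ Gam R (D R c 1 s) := mem_Gam.2 fun u hu => by
    classical
    obtain ⟨v, hv, h4⟩ := Set.mem_iUnion₂.1 (ht.ge (Set.mem_univ u))
    have h5 : (∏ v ∈ t, b v) * x =
        (∏ w ∈ t.erase v, b w) * a v * (γ u / γ v) * (x / γ u) := by
      rw [← Finset.prod_erase_mul _ _ hv, ← h2 v]
      field_simp [hγ.ne u, hγ.ne v]
    rw [h5]
    exact mul_mem (mul_mem (H.le u (mul_mem (prod_mem fun w _ => hb w) (ha v))) h4.2.1) (hx u hu)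
  rw [hS'] at h3
  refine (Subring.closure_le (t := (Algebra.adjoin (adj A (s' / s)) S).toSubring)).2 ?_ h3
  rintro y (hy | hy)
  · exact Subalgebra.algebraMap_mem _ (⟨y, le_adj _ _ hy⟩ : adj A (s' / s))
  · exact Algebra.subset_adjoin hy

theorem Pol.move' (H : Pol A R c e) (hγ : Bun R γ) {k : ℕ} {σ s x : L} (hσ : ∀ u, σ / c u ^ k ∈ R u)
    (hx : ∀ u ∈ D R c k σ, x / γ u ∈ R u) :
    ∀ᶠ M in atTop, ∀ u ∈ D R c 1 s, (σ / s ^ k) ^ M * x / γ u ∈ R u := by
  filter_upwards [H.ext hγ hσ hx] with M hM u hu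
  refine ((Un.pow hu k).pow M).cancel ?_
  rw [mul_div_assoc, ← mul_assoc, ← mul_pow, mul_comm (_ ^ k), (ratio hσ).2 u hu]
  exact hM u

theorem Pol.split [IsNoetherianRing A] (H : Pol A R c e) (hγ : Bun R γ)
    (hf : ∀ z : L, ∃ a ∈ A, ∃ b ∈ A, b ≠ 0 ∧ z * b = a) {s s' : L}
    (hs : ∀ u, s / c u ^ 1 ∈ R u) (hs' : ∀ u, s' / c u ^ 1 ∈ R u) (h0 : s ≠ 0) (h0' : s' ≠ 0)
    (hc : ∀ u, u ∈ D R c 1 s ∨ u ∈ D R c 1 s') :
    ∀ᶠ m in atTop, ∀ x, (∀ u ∈ D R c 1 s, u ∈ D R c 1 s' → x / γ u ∈ R u) → ∃ y z,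
      (∀ u ∈ D R c 1 s, y / γ u ∈ R u) ∧ (∀ u ∈ D R c 1 s', z / γ u ∈ R u) ∧
        x = y + (s' / s) ^ m * z := by
  have hA : ∀ W, A ≤ Gam R W := fun W x hx => mem_Gam.2 fun u _ => H.le u hx
  have hB : adj A (s' / s) ≤ Gam R (D R c 1 s) :=
    adj_le (hA _) (by simpa using (ratio (s := s) hs').1)
  have hB' : adj A (s / s') ≤ Gam R (D R c 1 s') :=
    adj_le (hA _) (by simpa using (ratio (s := s') hs).1)
  obtain ⟨G, hG⟩ := H.fg hγ hf hs h0 hc hB
  have h1 := (eventually_all_finset G).2 fun g hg => H.move' (s := s') (x := g) hγ hs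
    (show g ∈ secs R γ _ hB from hG ▸ Submodule.subset_span hg)
  filter_upwards [h1] with m hm x hx
  set P := secs R γ _ hB
  set Q := secs R γ _ hB'
  have hζ : s' / s * (s / s') = 1 := by field_simp
  have h2 : ∀ y ∈ P, ∃ y' ∈ P, ∃ z ∈ Q, y = (s' / s) ^ m * z + s' / s * y' := by
    intro y hy
    rw [← hG] at hy
    induction hy using Submodule.span_induction with
    | mem g hg =>
      refine ⟨0, zero_mem _, (s / s' ^ 1) ^ m * g, hm g hg, ?_⟩
      rw [pow_one, ← mul_assoc, ← mul_pow, hζ]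
      simp
    | zero => exact ⟨0, zero_mem _, 0, zero_mem _, by simp⟩
    | add y₁ y₂ _ _ h₁ h₂ =>
      obtain ⟨a, ha, b, hb, rfl⟩ := h₁
      obtain ⟨a', ha', b', hb', rfl⟩ := h₂
      exact ⟨a + a', add_mem ha ha', b + b', add_mem hb hb', by ring⟩
    | smul r y hy h =>
      obtain ⟨y', hy', z, hz, e1⟩ := h
      obtain ⟨a, ha, r', hr', e2⟩ := adj_split r.2
      rw [hG] at hy
      refine ⟨a * y' + r' * y, add_mem (P.smul_mem ⟨a, le_adj _ _ ha⟩ hy')
        (P.smul_mem ⟨r', hr'⟩ hy), a * z, Q.smul_mem ⟨a, le_adj _ _ ha⟩ hz, ?_⟩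
      rw [Subring.smul_def, smul_eq_mul, e2]
      linear_combination a * e1
  have h3 : ∀ j : ℕ, ∀ y ∈ P, ∃ y' ∈ P, ∃ z ∈ Q, (s / s') ^ j * y = y' + (s' / s) ^ m * z := by
    intro j
    induction j with
    | zero => exact fun y hy => ⟨y, hy, 0, zero_mem _, by simp⟩
    | succ j ih =>
      intro y hy
      obtain ⟨y', hy', z, hz, e1⟩ := h2 y hy
      obtain ⟨y'', hy'', z', hz', e2⟩ := ih y' hy'
      refine ⟨y'', hy'', z' + (s / s') ^ (j + 1) * z,
        add_mem hz' (Q.smul_mem ⟨_, pow_mem (mem_adj _ _) (j + 1)⟩ hz), ?_⟩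
      rw [e1]
      linear_combination e2 + (s / s') ^ j * y' * hζ
  obtain ⟨j, hj⟩ := (H.move' (k := 1 + 1) (σ := s * s') (s := s) (x := x) hγ
    (fun u => sec_mul (c := c) u ▸ mul_mem (hs u) (hs' u)) fun u hu => by
      change Un _ _ at hu
      rw [sec_mul] at hu
      exact hx u (hu.left (hs u) (hs' u)) (hu.right (hs u) (hs' u))).exists
  obtain ⟨y, hy, z, hz, e1⟩ := h3 j _ hj
  refine ⟨y, z, hy, hz, ?_⟩
  rw [← e1, ← mul_assoc, ← mul_pow, show s / s' * (s * s' / s ^ (1 + 1)) = 1 by field_simp,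
    one_pow, one_mul]

theorem Pol.general (H : Pol A R c e) (hq : ∀ n : ℕ, n ≠ 0 → Un A (n : L)) {Y : Set X}
    (hY : Y.Finite) : ∃ s, (∀ u, s / c u ^ 1 ∈ R u) ∧ Y ⊆ D R c 1 s := by
  induction Y, hY using Set.Finite.induction_on with
  | empty => exact ⟨0, by simp, Set.empty_subset _⟩
  | @insert y Y _ hY ih =>
    obtain ⟨s, hs, h⟩ := ih
    obtain ⟨a, ha⟩ := H.cover y
    have key : ∀ u, u ∈ D R c 1 s ∨ u ∈ D R c 1 (e a) →
        {n : ℕ | u ∉ D R c 1 (s + n * e a)}.Subsingleton := by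
      intro u hu
      have hn : ∀ n : ℕ, (n : L) ∈ Gam R {u} := fun n => natCast_mem _ n
      have hle : Gam R {u} ≤ R u := fun x hx => mem_Gam.1 hx u rfl
      let I := nu _ (H.lc u) hle
      let x : Gam R {u} := ⟨s / c u ^ 1, mem_Gam.2 fun w (hw : w = u) => by rw [hw]; exact hs u⟩
      let z : Gam R {u} :=
        ⟨e a / c u ^ 1, mem_Gam.2 fun w (hw : w = u) => by rw [hw]; exact H.sec a u⟩
      have h1 : ∀ n : ℕ, u ∉ D R c 1 (s + n * e a) → x + n * z ∈ I := fun n h h' => h (by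
        change Un _ _
        rw [add_div, mul_div_assoc]
        exact h')
      have h2 : ∀ n m : ℕ, u ∉ D R c 1 (s + n * e a) → u ∉ D R c 1 (s + m * e a) → ¬n < m := by
        intro n m h3 h4 h5
        obtain ⟨d, rfl⟩ := Nat.exists_eq_add_of_lt h5
        have h6 := sub_mem (h1 _ h4) (h1 _ h3)
        rw [show x + ((n + d + 1 : ℕ) : Gam R {u}) * z - (x + n * z) =
          ((d + 1 : ℕ) : Gam R {u}) * z by push_cast; ring] at h6
        have h7 : z ∈ I := ((nu_prime _ _ _).mem_or_mem h6).resolve_left fun h =>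
          h ((hq _ d.succ_ne_zero).mono (H.le u))
        have h8 : x ∈ I := by simpa using sub_mem (h1 _ h3) (I.mul_mem_left n h7)
        exact hu.elim h8 h7
      exact fun n h3 m h4 => le_antisymm (not_lt.1 (h2 m n h4 h3)) (not_lt.1 (h2 n m h3 h4))
    have hfin : (⋃ u ∈ insert y Y, {n : ℕ | u ∉ D R c 1 (s + n * e a)}).Finite :=
      (hY.insert y).biUnion fun u hu => (key u (hu.elim (fun e => .inr (e ▸ ha))
        fun hu => .inl (h hu))).finite
    obtain ⟨n, hn⟩ := hfin.exists_notMem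
    refine ⟨s + n * e a, fun u => ?_, fun u hu => ?_⟩
    · rw [add_div, mul_div_assoc]
      exact add_mem (hs u) (mul_mem (natCast_mem _ n) (H.sec a u))
    · by_contra h'
      exact hn (Set.mem_biUnion hu h')

theorem Pol.two [IsNoetherianRing A] [Nonempty X] (H : Pol A R c e)
    (hq : ∀ n : ℕ, n ≠ 0 → Un A (n : L)) (hd : ringKrullDim A ≤ 2)
    (hf : ∀ z : L, ∃ a ∈ A, ∃ b ∈ A, b ≠ 0 ∧ z * b = a) {m : Set L} (hm : ∃ x ∈ m, x ∈ A ∧ x ≠ 0)
    (hsp : ∀ u, ∃ w, u ⤳ w ∧ ∀ x ∈ m, ¬Un (R w) x) :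
    ∃ s s', (∀ u, s / c u ^ 1 ∈ R u) ∧ (∀ u, s' / c u ^ 1 ∈ R u) ∧ s ≠ 0 ∧ s' ≠ 0 ∧
      ∀ u, u ∈ D R c 1 s ∨ u ∈ D R c 1 s' := by
  have hB : ∀ a, IsNoetherianRing (Gam R (D R c 1 (e a))) ∧
      ringKrullDim (Gam R (D R c 1 (e a))) ≤ 2 := fun a => by
    obtain ⟨S, hS, h⟩ := (H.chart a).ft
    rw [h]
    exact dim_closure hd hf hS
  let τ : (s : L) → (∀ u, s / c u ^ 1 ∈ R u) → ∀ a, Gam R (D R c 1 (e a)) := fun s hs a =>
    ⟨s / e a ^ 1, (ratio hs).1⟩
  have hτ : ∀ s hs a, ∀ u ∈ D R c 1 (e a), Un (R u) (τ s hs a) ↔ u ∈ D R c 1 s := by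
    intro s hs a u hu
    change _ ↔ Un _ _
    rw [← (ratio hs).2 u hu]
    exact ⟨fun h => h.mul (Un.pow hu _), Un.left (mem_Gam.1 (τ s hs a).2 u hu) (pow_mem hu.2.1 _)⟩
  have key : ∀ J : ∀ a, Ideal (Gam R (D R c 1 (e a))), ∃ s, ∃ hs : ∀ u, s / c u ^ 1 ∈ R u,
      s ≠ 0 ∧ ∀ a, ∀ p ∈ (J a).minimalPrimes, τ s hs a ∉ p := by
    intro J
    choose v hv h1 _ using fun a (p : (J a).minimalPrimes) => (H.chart a).pt p p.2.1.1
    have := fun a => (hB a).1
    have := fun a => (Ideal.finite_minimalPrimes_of_isNoetherianRing _ (J a)).to_subtype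
    obtain ⟨u⟩ := ‹Nonempty X›
    obtain ⟨s, hs, h2⟩ := H.general hq ((Set.finite_iUnion fun a => Set.finite_range (v a)).insert u)
    refine ⟨s, hs, (div_ne_zero_iff.1 (h2 (Set.mem_insert _ _)).1).1, fun a p hp h3 => ?_⟩
    exact (h1 a ⟨p, hp⟩ _).1 h3 ((hτ s hs a _ (hv a ⟨p, hp⟩)).2
      (h2 (.inr (Set.mem_iUnion.2 ⟨a, _, rfl⟩))))
  let J : ∀ a, Ideal (Gam R (D R c 1 (e a))) := fun a => Ideal.span {b | (b : L) ∈ m}
  obtain ⟨s, hs, h0, h1⟩ := key J
  obtain ⟨s', hs', h0', h1'⟩ := key fun a => J a ⊔ Ideal.span {τ s hs a}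
  refine ⟨s, s', hs, hs', h0, h0', fun u => ?_⟩
  obtain ⟨w, hw, h2⟩ := hsp u
  suffices h : w ∈ D R c 1 s ∨ w ∈ D R c 1 s' from h.imp
    (fun h => mem_of_mem_nhds (hw (un_nhds H.nh (H.bun.pow 1) h)))
    fun h => mem_of_mem_nhds (hw (un_nhds H.nh (H.bun.pow 1) h))
  by_contra! h3
  obtain ⟨a, ha⟩ := H.cover w
  have hle : Gam R (D R c 1 (e a)) ≤ R w := fun x hx => mem_Gam.1 hx w ha
  have := nu_prime _ (H.lc w) hle
  obtain ⟨q, hq1, hq2⟩ := Ideal.exists_minimalPrimes_le (I := J a ⊔ Ideal.span {τ s hs a})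
    (J := nu _ (H.lc w) hle) (sup_le (Ideal.span_le.2 fun b hb => h2 b hb)
      ((Ideal.span_singleton_le_iff_mem _).2 fun h => h3.1 ((hτ s hs a w ha).1 h)))
  have := hq1.1.1
  obtain ⟨p, hp1, hp2⟩ := Ideal.exists_minimalPrimes_le (I := J a) (J := q)
    (le_sup_left.trans hq1.1.2)
  have := hp1.1.1
  obtain ⟨x, hx, hxA, hx0⟩ := hm
  refine no_chain (hB a).2 (p := p) (q := q) (r := nu _ (H.lc w) hle) (fun h => hx0 ?_)
    (lt_of_le_of_ne hp2 fun h => h1 a p hp1 ?_) (lt_of_le_of_ne hq2 fun h => h1' a q hq1 ?_)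
  · have : (⟨x, mem_Gam.2 fun u _ => H.le u hxA⟩ : Gam R (D R c 1 (e a))) ∈ p :=
      hp1.1.2 (Ideal.subset_span hx)
    rw [h, Ideal.mem_bot] at this
    exact congrArg Subtype.val this
  · rw [h]
    exact hq1.1.2 (Ideal.mem_sup_right (Ideal.subset_span rfl))
  · rw [h]
    exact fun h => h3.2 ((hτ s' hs' a w ha).1 h)

/-- The Cousin problem is solvable for high twists of every invertible sheaf. -/
theorem Pol.main [IsNoetherianRing A] [Nonempty X] (H : Pol A R c e) (hγ : Bun R γ)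
    (hq : ∀ n : ℕ, n ≠ 0 → Un A (n : L)) (hd : ringKrullDim A ≤ 2)
    (hf : ∀ z : L, ∃ a ∈ A, ∃ b ∈ A, b ≠ 0 ∧ z * b = a) {m : Set L} (hm : ∃ x ∈ m, x ∈ A ∧ x ≠ 0)
    (hsp : ∀ u, ∃ w, u ⤳ w ∧ ∀ x ∈ m, ¬Un (R w) x) :
    ∀ᶠ n in atTop, ∀ κ : X → L, (∀ u, ∀ᶠ w in 𝓝 u, (κ w - κ u) / (γ w * c w ^ n) ∈ R w) →
      ∃ g, ∀ u, (g - κ u) / (γ u * c u ^ n) ∈ R u := by
  obtain ⟨s, s', hs, hs', h0, h0', hc⟩ := H.two hq hd hf hm hsp
  filter_upwards [H.split hγ hf hs hs' h0 h0' hc] with n hn κ hκ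
  obtain ⟨g, hg⟩ := H.cousin (hγ.mul (H.bun.pow n)) hs h0 hκ
  obtain ⟨g', hg'⟩ := H.cousin (hγ.mul (H.bun.pow n)) hs' h0' hκ
  have h1 : ∀ (t x : L) u, t ^ n * x / (γ u * c u ^ n) = (t / c u ^ 1) ^ n * (x / γ u) := by
    intro t x u
    rw [pow_one, div_pow, mul_comm (γ u), mul_div_mul_comm]
  obtain ⟨y, z, hy, hz, e1⟩ := hn ((g - g') / s ^ n) fun u hu hu' => (Un.pow hu n).cancel (by
    rw [← h1, mul_div_cancel₀ _ (pow_ne_zero n h0), ← sub_sub_sub_cancel_right _ _ (κ u), sub_div]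
    exact sub_mem (hg u hu) (hg' u hu'))
  refine ⟨g - s ^ n * y, fun u => (hc u).elim (fun hu => ?_) fun hu => ?_⟩
  · rw [sub_right_comm, sub_div, h1]
    exact sub_mem (hg u hu) (mul_mem (pow_mem (hs u) n) (hy u hu))
  · have e2 : g - s ^ n * y - κ u = g' - κ u + s' ^ n * z := by
      rw [div_pow] at e1
      field_simp at e1
      linear_combination e1
    rw [e2, add_div, h1]
    exact add_mem (hg' u hu) (mul_mem (pow_mem (hs' u) n) (hz u hu))

end Pool.Agent.MP_648617_ag.Amp.Cous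

end B

open AlgebraicGeometry CategoryTheory TopologicalSpace IsLocalRing Filter Topology

noncomputable section

namespace Pool.Agent.MP_648617_ag.Amp

open Cous

variable {U : Scheme.{0}} [IsIntegral U]

theorem un_iff {T : Subring U.functionField} {x : U.functionField} (hx : x ∈ T) :
    Un T x ↔ ∃ v ∈ T, x * v = 1 :=
  ⟨fun h => ⟨_, h.2.2, mul_inv_cancel₀ h.1⟩, fun ⟨_, hv, e⟩ =>
    ⟨left_ne_zero_of_mul_eq_one e, hx, eq_inv_of_mul_eq_one_right e ▸ hv⟩⟩

theorem un_alg (y : U) (a : U.presheaf.stalk y) :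
    Un (loc y) (algebraMap _ U.functionField a) ↔ IsUnit a :=
  (un_iff (T := loc y) ⟨a, rfl⟩).trans (isUnit_iff y a).symm

theorem lc_loc (y : U) : Lc (loc y) := by
  rintro _ ⟨a, rfl⟩ _ ⟨b, rfl⟩ h
  rw [← map_add, un_alg] at h
  rw [un_alg, un_alg]
  exact isUnit_or_isUnit_of_isUnit_add h

theorem un_germ {N : U.Opens} {y : U} (hy : y ∈ N) (b : Γ(U, N)) :
    Un (loc y) (U.presheaf.germ N (genericPoint U) (gen_mem hy) b) ↔ y ∈ U.basicOpen b := by
  rw [mem_basicOpen_iff hy, un_iff (germ_mem_loc hy b)]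

variable {A : Type} [CommRing A] (f : U ⟶ Spec (.of A))

theorem chart [LocallyOfFiniteType f] {N : U.Opens} (hN : IsAffineOpen N)
    (h : genericPoint U ∈ N) : Chart (toK f).range loc (N : Set U) := by
  let g := (U.presheaf.germ N (genericPoint U) h).hom
  have hg : ∀ b, g b ∈ Gam loc (N : Set U) := fun b => mem_Gam.2 fun u hu => germ_mem_loc hu b
  have hs : ∀ x ∈ Gam loc (N : Set U), ∃ b, g b = x := fun x hx => exists_section h (mem_Gam.1 hx)
  refine ⟨fun p hp => ?_, fun v hv W hW => ?_, ?_⟩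
  · let q : PrimeSpectrum Γ(U, N) := ⟨p.comap (g.codRestrict _ hg), inferInstance⟩
    have hv : hN.fromSpec q ∈ N := by
      change _ ∈ (N : Set U)
      rw [← hN.range_fromSpec]
      exact ⟨q, rfl⟩
    have h1 : ∀ b, hN.fromSpec q ∈ U.basicOpen b ↔ (⟨g b, hg b⟩ : Gam loc (N : Set U)) ∉ p :=
      fun b => SetLike.ext_iff.1 (hN.fromSpec_preimage_basicOpen b) q
    refine ⟨_, hv, fun ⟨x, hx⟩ => ?_, fun x hx => ?_⟩
    · obtain ⟨b, rfl⟩ := hs x hx
      exact (not_iff_comm.1 ((un_germ hv b).trans (h1 b)).symm).symm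
    · obtain ⟨a, b, hb, e⟩ := (loc_affine hN hv x).1 hx
      exact ⟨⟨g b, hg b⟩, (h1 b).1 hb, (mul_comm _ _).trans e ▸ hg a⟩
  · obtain ⟨V, hV, ho, hvV⟩ := mem_nhds_iff.1 hW
    obtain ⟨b, h1, h2⟩ := hN.exists_basicOpen_le (V := ⟨V, ho⟩) ⟨v, hvV⟩ hv
    exact ⟨g b, hg b, (un_germ hv b).2 h2, fun w hw h3 => hV (h1 ((un_germ hw b).1 h3))⟩
  · have h1 := f.finiteType_appLE (isAffineOpen_top _) hN (le_top : N ≤ f ⁻¹ᵁ ⊤)
    let := (f.appLE ⊤ N le_top).hom.toAlgebra
    obtain ⟨S, hS⟩ := h1.out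
    refine ⟨g '' S, S.finite_toSet.image g, le_antisymm (fun x hx => ?_) (Subring.closure_le.2 ?_)⟩
    · obtain ⟨b, rfl⟩ := hs x hx
      have hb : b ∈ Algebra.adjoin Γ(Spec (.of A), ⊤) (S : Set Γ(U, N)) := hS ▸ trivial
      rw [Algebra.mem_adjoin_iff] at hb
      refine (Subring.closure_le (t := (Subring.closure _).comap g)).2 ?_ hb
      rintro _ (⟨a, rfl⟩ | hy)
      · refine Subring.subset_closure (.inl ⟨(Scheme.ΓSpecIso (.of A)).hom a, ?_⟩)
        change U.presheaf.germ ⊤ _ trivial (f.appTop ((Scheme.ΓSpecIso (.of A)).inv _)) =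
          U.presheaf.germ N _ h (U.presheaf.map (homOfLE le_top).op (f.appTop a))
        rw [Iso.hom_inv_id_apply, TopCat.Presheaf.germ_res_apply]
      · exact Subring.subset_closure (.inr ⟨_, hy, rfl⟩)
    · rintro _ (⟨a, rfl⟩ | ⟨b, -, rfl⟩)
      · exact mem_Gam.2 fun u _ => toK_mem_loc f a u
      · exact hg b

theorem exists_closed [IsLocalRing A] [UniversallyClosed f] (u : U) :
    ∃ w, u ⤳ w ∧ ∀ x ∈ toK f '' (maximalIdeal A), ¬Un (loc w) x := by
  obtain ⟨w, hw, e⟩ : closedPoint A ∈ f '' closure {u} :=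
    (specializes_closedPoint (f u)).mem_closed (f.isClosedMap _ isClosed_closure)
      ⟨u, subset_closure rfl, rfl⟩
  refine ⟨w, specializes_iff_mem_closure.2 hw, ?_⟩
  rintro _ ⟨a, ha, rfl⟩ h
  have h1 : w ∈ U.basicOpen (f.appTop ((Scheme.ΓSpecIso (.of A)).inv a)) :=
    (un_germ (Opens.mem_top w) _).1 h
  rw [← Scheme.preimage_basicOpen_top, basicOpen_eq_of_affine] at h1
  have h2 : f w ∈ PrimeSpectrum.basicOpen a := h1
  rw [e] at h2
  exact h2 ha

theorem cousinAPI : CousinAPI := by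
  intro A _ _ _ _ _ hd hm U _ f _ hi hf c hc ha
  have : CompactSpace U := QuasiCompact.compactSpace_of_compactSpace f
  choose k σ N hk h0 hy hN h1 using ha
  obtain ⟨t, ht⟩ := CompactSpace.elim_nhds_subcover (fun y => (N y : Set U)) fun y =>
    (N y).2.mem_nhds (hy y)
  have hB : Bun loc c := fun y => (hc.2 y).mono fun w hw =>
    ⟨div_ne_zero (hc.1 w) (hc.1 y), hw.1, by rw [inv_div]; exact hw.2⟩
  choose d hd' using fun a : t => Finset.dvd_prod_of_mem k a.2
  have hP : 0 < ∏ a ∈ t, k a := Finset.prod_pos fun a _ => hk a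
  set P := ∏ a ∈ t, k a
  have e1 : ∀ (a : t) u, σ a ^ d a / (c u ^ P) ^ 1 = (σ a / c u ^ k a) ^ d a := fun a u => by
    rw [pow_one, hd' a, pow_mul, div_pow]
  have e2 : ∀ a : t, D loc (fun u => c u ^ P) 1 (σ a ^ d a) = N a := fun a => Set.ext fun u => by
    change Un _ _ ↔ _
    rw [e1]
    refine ⟨fun h => (h1 a u).2.2 ?_, fun h => Un.pow ⟨div_ne_zero (h0 a) (pow_ne_zero _ (hc.1 u)),
      (h1 a u).1, by rw [inv_div]; exact (h1 a u).2.1 h⟩ _⟩
    obtain ⟨n, hn⟩ := Nat.exists_eq_succ_of_ne_zero (n := d a) fun e => by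
      rw [hd' a, e] at hP
      exact lt_irrefl _ hP
    rw [hn, pow_succ] at h
    rw [← inv_div]
    exact (h.right (pow_mem (h1 a u).1 n) (h1 a u).1).2.2
  have H : Pol (toK f).range loc (fun u => c u ^ P) fun a : t => σ a ^ d a :=
    { lc := lc_loc
      le := by rintro u _ ⟨a, rfl⟩; exact toK_mem_loc f a u
      nh := fun u x hx => loc_nhds hx
      centre := fun V hV => (centre f V fun a => hV ⟨a, rfl⟩).imp fun u h => ⟨h.1, fun x hx h' => by
        by_cases h0 : x = 0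
        · simp [h0]
        · exact h.2 x hx h0 h'⟩
      bun := hB.pow P
      sec := fun a u => e1 a u ▸ pow_mem (h1 a u).1 _
      chart := fun a => e2 a ▸ chart f (hN a) (gen_mem (hy a))
      cover := fun u => by
        obtain ⟨a, ha, hu⟩ := Set.mem_iUnion₂.1 (ht.ge (Set.mem_univ u))
        exact ⟨⟨a, ha⟩, (e2 ⟨a, ha⟩).ge hu⟩ }
  have hq : ∀ n : ℕ, n ≠ 0 → Un (toK f).range (n : U.functionField) := fun n hn =>
    (un_iff (natCast_mem _ n)).2 ⟨_, ⟨algebraMap ℂ A (n : ℂ)⁻¹, rfl⟩, by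
      rw [← map_natCast (toK f), ← map_natCast (algebraMap ℂ A), ← map_mul, ← map_mul,
        mul_inv_cancel₀ (Nat.cast_ne_zero.2 hn), map_one, map_one]⟩
  obtain ⟨x, hx, hx0⟩ := Submodule.exists_mem_ne_zero_of_ne_bot hm
  have key := fun r : Fin P => H.main (hB.pow r) hq
    ((ringKrullDim_le_of_surjective _ (toK f).rangeRestrict_surjective).trans hd)
    (fun z => by
      obtain ⟨a, b, hb, e⟩ := hf z
      exact ⟨_, ⟨a, rfl⟩, _, ⟨b, rfl⟩, (map_ne_zero_iff _ hi).2 hb, e⟩)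
    (m := toK f '' (maximalIdeal A)) ⟨_, ⟨x, hx, rfl⟩, ⟨x, rfl⟩, (map_ne_zero_iff _ hi).2 hx0⟩
    (exists_closed f)
  obtain ⟨n, hn⟩ := eventually_atTop.1 (eventually_all.2 key)
  refine ⟨n * P, fun j hj => ?_⟩
  have h2 := hn (j / P) ((Nat.le_div_iff_mul_le hP).2 hj) ⟨j % P, Nat.mod_lt j hP⟩
  simp only [← pow_mul, ← pow_add, Nat.mod_add_div] at h2
  exact h2

end Pool.Agent.MP_648617_ag.Amp

end
end MrgPart2

-- ======== part 3: formerly Pool.Agent.MP_648617_ag.amp.Lift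
section MrgPart3

/-!
Lifting a section of an invertible sheaf from the central fibre, inside one ring.
-/

open Filter Topology IsLocalRing

namespace Pool.Agent.MP_648617_ag.Amp

namespace Lift

variable {P k I O : Type*} [CommRing P] [CommRing k] [CommRing O]

/-- The multiples of `c` by elements of `R`. -/
def mults (R : Subring P) (c : P) : AddSubgroup P where
  carrier := {x | ∃ r ∈ R, x = c * r}
  add_mem' := by
    rintro _ _ ⟨a, ha, rfl⟩ ⟨b, hb, rfl⟩
    exact ⟨a + b, add_mem ha hb, by ring⟩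
  zero_mem' := ⟨0, zero_mem _, by simp⟩
  neg_mem' := by
    rintro _ ⟨a, ha, rfl⟩
    exact ⟨-a, neg_mem ha, by ring⟩

theorem mem_mults {R : Subring P} {c x : P} : x ∈ mults R c ↔ ∃ r ∈ R, x = c * r := Iff.rfl

theorem sat_pow {R : Subring P} {s : P} (h : ∀ y, s * y ∈ R → y ∈ R) (n : ℕ) :
    ∀ y, s ^ n * y ∈ R → y ∈ R := by
  induction n with
  | zero => simp
  | succ n ih => exact fun y hy => h y (ih _ (by rwa [← mul_assoc, ← pow_succ]))

theorem sat_mults {R : Subring P} {s c : P} (h : ∀ y, s * y ∈ R → y ∈ R) (hc : IsUnit c) (n : ℕ)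
    {y : P} (hy : s ^ n * y ∈ mults R c) : y ∈ mults R c := by
  obtain ⟨r, hr, e⟩ := hy
  obtain ⟨c, rfl⟩ := hc
  refine ⟨↑c⁻¹ * y, sat_pow h n _ ?_, by simp⟩
  rw [mul_left_comm, e, Units.inv_mul_cancel_left]
  exact hr

theorem krull0 {R : Type*} [CommRing R] [IsNoetherianRing R] [IsLocalRing R] {s d x : R}
    (hm : ¬ IsUnit s) (h : ∀ n : ℕ, ∃ r y, x = d * r + s ^ n * y) : d ∣ x := by
  have hS : Ideal.span {s} ≠ ⊤ := fun e => hm (Ideal.span_singleton_eq_top.1 e)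
  have h1 := Ideal.iInf_pow_smul_eq_bot_of_isLocalRing (M := R ⧸ Ideal.span {d}) _ hS
  have h2 : Ideal.Quotient.mk (Ideal.span {d}) x ∈
      (⨅ n : ℕ, Ideal.span {s} ^ n • ⊤ : Submodule R (R ⧸ Ideal.span {d})) := by
    refine (Submodule.mem_iInf _).2 fun n => ?_
    obtain ⟨r, y, e⟩ := h n
    have e2 : Ideal.Quotient.mk (Ideal.span {d}) (d * r) = 0 :=
      Ideal.Quotient.eq_zero_iff_mem.2 (Ideal.mul_mem_right _ _ (Ideal.subset_span rfl))
    have e3 : Ideal.Quotient.mk (Ideal.span {d}) x =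
        s ^ n • Ideal.Quotient.mk (Ideal.span {d}) y := by
      rw [e, map_add, e2, zero_add, Algebra.smul_def, map_mul, Ideal.Quotient.algebraMap_eq]
    rw [e3]
    exact Submodule.smul_mem_smul (Ideal.pow_mem_pow (Ideal.mem_span_singleton_self s) n)
      Submodule.mem_top
  rwa [h1, Submodule.mem_bot, Ideal.Quotient.eq_zero_iff_mem, Ideal.mem_span_singleton] at h2

/-- Krull: an element of `R` that is a multiple of `d` modulo every power of `s` is a multiple. -/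
theorem krull {R : Subring P} [IsNoetherianRing R] [IsLocalRing R] {s : P} (hs : s ∈ R)
    (hm : ¬ IsUnit (⟨s, hs⟩ : R)) {d x : P} (hd : d ∈ R) (hx : x ∈ R)
    (h : ∀ n : ℕ, ∃ r ∈ R, ∃ y ∈ R, x = d * r + s ^ n * y) : x ∈ mults R d := by
  obtain ⟨r, e⟩ := krull0 (d := (⟨d, hd⟩ : R)) (x := ⟨x, hx⟩) hm fun n => by
    obtain ⟨r, hr, y, hy, e⟩ := h n
    exact ⟨⟨r, hr⟩, ⟨y, hy⟩, Subtype.ext e⟩
  exact ⟨r, r.2, congrArg Subtype.val e⟩

/-- A sequence that is Cauchy for the powers of `s` has a limit. -/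
theorem limit [IsLocalRing O] [IsNoetherianRing O] [IsAdicComplete (maximalIdeal O) O] {s : O}
    (hs : s ∈ maximalIdeal O) (β : ℕ → O) (h : ∀ n, s ^ (n + 1) ∣ β n - β (n + 1)) :
    ∃ L, ∀ n, s ^ (n + 1) ∣ β n - L := by
  have hd : ∀ m n, m ≤ n → s ^ (m + 1) ∣ β m - β n := fun m n hmn => by
    induction n, hmn using Nat.le_induction with
    | base => simp
    | succ n hmn ih =>
      have := dvd_add ih ((pow_dvd_pow s (Nat.succ_le_succ hmn)).trans (h n))
      rwa [sub_add_sub_cancel] at this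
  obtain ⟨L, hL⟩ := IsPrecomplete.prec (I := maximalIdeal O) inferInstance (f := β)
    fun {m n} hmn => by
      rw [SModEq.sub_mem, smul_eq_mul, Ideal.mul_top]
      obtain ⟨y, hy⟩ := hd m n hmn
      rw [hy, pow_succ, mul_assoc]
      exact Ideal.mul_mem_right _ _ (Ideal.pow_mem_pow hs m)
  refine ⟨L, fun n => ?_⟩
  have h1 := Ideal.iInf_pow_smul_eq_bot_of_isLocalRing (M := O ⧸ Ideal.span {s ^ (n + 1)}) _
    (maximalIdeal.isMaximal O).ne_top
  have h2 : Ideal.Quotient.mk (Ideal.span {s ^ (n + 1)}) (β n - L) ∈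
      (⨅ j : ℕ, maximalIdeal O ^ j • ⊤ : Submodule O (O ⧸ Ideal.span {s ^ (n + 1)})) := by
    refine (Submodule.mem_iInf _).2 fun j => ?_
    have h3 := hL (n + j)
    rw [SModEq.sub_mem, smul_eq_mul, Ideal.mul_top] at h3
    have h4 : Ideal.Quotient.mk (Ideal.span {s ^ (n + 1)}) (β n - L) =
        (β (n + j) - L) • (1 : O ⧸ Ideal.span {s ^ (n + 1)}) := by
      rw [Algebra.smul_def, mul_one, Ideal.Quotient.algebraMap_eq, Ideal.Quotient.eq,
        sub_sub_sub_cancel_right, Ideal.mem_span_singleton]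
      exact hd n _ (Nat.le_add_right n j)
    rw [h4]
    exact Submodule.smul_mem_smul (Ideal.pow_le_pow_right (Nat.le_add_left j n) h3)
      Submodule.mem_top
  rwa [h1, Submodule.mem_bot, Ideal.Quotient.eq_zero_iff_mem, Ideal.mem_span_singleton] at h2

theorem dvd_of_map {ι : O →+* P} {s : O} (h0 : ∀ y, ι s * y = 0 → y = 0)
    (h : ∀ o, ι s ∣ ι o → s ∣ o) (n : ℕ) : ∀ o, ι s ^ n ∣ ι o → s ^ n ∣ o := by
  induction n with
  | zero => simp
  | succ n ih =>
    rintro o ⟨y, hy⟩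
    obtain ⟨o, rfl⟩ := h o ⟨ι s ^ n * y, by rw [hy]; ring⟩
    rw [pow_succ']
    refine mul_dvd_mul_left s (ih o ⟨y, sub_eq_zero.1 (h0 _ ?_)⟩)
    rw [map_mul] at hy
    linear_combination hy

/-- Elements that are locally regular modulo `s ^ n` are global modulo `s ^ n`. -/
theorem glob {ι : O →+* P} {R : I → Subring P} {s : O} {ρ : P →+* k}
    (hρ : ∀ x, ρ x = 0 ↔ ι s ∣ x) (hOR : ∀ u o, ι o ∈ R u)
    (hsat : ∀ u y, ι s * y ∈ R u → y ∈ R u)
    (hG : ∀ x, (∀ u, ∃ r ∈ R u, ρ r = x) → ∃ a, ρ (ι a) = x) (n : ℕ) :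
    ∀ x, (∀ u, ∃ r ∈ R u, ι s ^ n ∣ x - r) → ∃ a, ι s ^ n ∣ x - ι a := by
  induction n with
  | zero => exact fun x _ => ⟨0, by simp⟩
  | succ n ih =>
    intro x hx
    obtain ⟨a, e⟩ := hG (ρ x) fun u => by
      obtain ⟨r, hr, e⟩ := hx u
      refine ⟨r, hr, (sub_eq_zero.1 ?_).symm⟩
      rw [← map_sub, hρ]
      exact (dvd_pow_self _ n.succ_ne_zero).trans e
    obtain ⟨y, hy⟩ := (hρ (x - ι a)).1 (by rw [map_sub, e, sub_self])
    obtain ⟨a', z, hz⟩ := ih y fun u => by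
      obtain ⟨r, hr, z, hz⟩ := hx u
      refine ⟨y - ι s ^ n * z, hsat u _ ?_, z, by ring⟩
      have e1 : ι s * (y - ι s ^ n * z) = r - ι a := by linear_combination hz - hy
      rw [e1]
      exact sub_mem hr (hOR u a)
    exact ⟨a + s * a', z, by rw [map_add, map_mul]; linear_combination hy + ι s * hz⟩

/-- One step of the lifting. -/
theorem step [TopologicalSpace I] {R : I → Subring P} {c : I → P} {s : P} {ρ : P →+* k}
    (hρ : ∀ x, ρ x = 0 ↔ s ∣ x) (hsurj : Function.Surjective ρ) (hsR : ∀ u, s ∈ R u)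
    (hsat : ∀ u y, s * y ∈ R u → y ∈ R u) (hc : ∀ u, IsUnit (c u))
    (hloc : ∀ u, ∀ x ∈ mults (R u) (c u), ∀ᶠ w in 𝓝 u, x ∈ mults (R w) (c w))
    (hC : ∀ h : I → k, (∀ u, ∀ᶠ w in 𝓝 u, ∃ x ∈ mults (R w) (c w), ρ x = h u - h w) →
      ∃ g, ∀ u, ∃ x ∈ mults (R u) (c u), ρ x = g - h u)
    (n : ℕ) (σ : P) (hσ : ∀ u, ∃ x ∈ mults (R u) (c u), s ^ n ∣ σ - x) :
    ∃ σ', s ^ n ∣ σ' - σ ∧ ∀ u, ∃ x ∈ mults (R u) (c u), s ^ (n + 1) ∣ σ' - x := by
  choose τ hτ y hy using hσ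
  obtain ⟨g, hg⟩ := hC (fun u => ρ (y u)) fun u => (hloc u _ (hτ u)).mono fun w hw =>
    ⟨y u - y w, sat_mults (hsat w) (hc w) n (by
      have e : s ^ n * (y u - y w) = τ w - τ u := by linear_combination hy w - hy u
      rw [e]
      exact sub_mem (hτ w) hw), map_sub _ _ _⟩
  obtain ⟨g, rfl⟩ := hsurj g
  refine ⟨σ - s ^ n * g, ⟨-g, by ring⟩, fun u => ?_⟩
  obtain ⟨x, ⟨r, hr, rfl⟩, e⟩ := hg u
  obtain ⟨z, hz⟩ := (hρ (y u - g + c u * r)).1 (by rw [map_add, e, map_sub]; ring)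
  refine ⟨τ u - c u * (s ^ n * r), sub_mem (hτ u) ⟨_, mul_mem (pow_mem (hsR u) n) hr, rfl⟩, z, ?_⟩
  linear_combination hy u + s ^ n * hz

/-- Every section on the central fibre lifts. -/
theorem lift [IsLocalRing O] [IsNoetherianRing O] [IsAdicComplete (maximalIdeal O) O]
    [TopologicalSpace I] {ι : O →+* P} {R : I → Subring P} {c : I → P} {s : O} {b : P}
    {ρ : P →+* k} [∀ u, IsNoetherianRing (R u)] [∀ u, IsLocalRing (R u)]
    (hs : s ∈ maximalIdeal O) (h0 : ∀ y, ι s * y = 0 → y = 0)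
    (hρ : ∀ x, ρ x = 0 ↔ ι s ∣ x) (hsurj : Function.Surjective ρ)
    (hO : ∀ o, ι s ∣ ι o → s ∣ o) (hOR : ∀ u o, ι o ∈ R u)
    (hm : ∀ u, ¬ IsUnit (⟨ι s, hOR u s⟩ : R u)) (hsat : ∀ u y, ι s * y ∈ R u → y ∈ R u)
    (hc : ∀ u, IsUnit (c u)) (hb : ∀ y, b * y = 0 → y = 0) (hb' : ∀ y, ρ b * y = 0 → y = 0)
    (hbc : ∀ u, b * c u ∈ R u)
    (hloc : ∀ u, ∀ x ∈ mults (R u) (c u), ∀ᶠ w in 𝓝 u, x ∈ mults (R w) (c w))
    (hC : ∀ h : I → k, (∀ u, ∀ᶠ w in 𝓝 u, ∃ x ∈ mults (R w) (c w), ρ x = h u - h w) →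
      ∃ g, ∀ u, ∃ x ∈ mults (R u) (c u), ρ x = g - h u)
    (hG : ∀ x, (∀ u, ∃ r ∈ R u, ρ r = x) → ∃ a, ρ (ι a) = x)
    (e : k) (he : ∀ u, ∃ x ∈ mults (R u) (c u), ρ x = e) :
    ∃ σ, ρ σ = e ∧ ∀ u, σ ∈ mults (R u) (c u) := by
  obtain ⟨σ₀, rfl⟩ := hsurj e
  rcases isEmpty_or_nonempty I with hI | ⟨⟨u₀⟩⟩
  · exact ⟨σ₀, rfl, fun u => hI.elim u⟩
  have h1 : ∀ u, ∃ x ∈ mults (R u) (c u), ι s ^ (0 + 1) ∣ σ₀ - x := fun u => by
    obtain ⟨x, hx, e⟩ := he u
    exact ⟨x, hx, by rw [zero_add, pow_one, ← hρ, map_sub, e, sub_self]⟩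
  choose F hF1 hF2 using step hρ hsurj (fun u => hOR u s) hsat hc hloc hC
  let σ : (n : ℕ) → {x : P // ∀ u, ∃ y ∈ mults (R u) (c u), ι s ^ (n + 1) ∣ x - y} := fun n =>
    Nat.rec ⟨σ₀, h1⟩ (fun n x => ⟨F (n + 1) x.1 x.2, hF2 _ _ _⟩) n
  have hσ : ∀ n, ι s ^ (n + 1) ∣ (σ (n + 1)).1 - (σ n).1 := fun n => hF1 _ _ _
  have hσ0 : (σ 0).1 = σ₀ := rfl
  clear_value σ
  have hβ : ∀ n, ∃ a, ι s ^ (n + 1) ∣ b * (σ n).1 - ι a := fun n =>
    glob hρ hOR hsat hG (n + 1) _ fun u => by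
      obtain ⟨_, ⟨r, hr, rfl⟩, z, hz⟩ := (σ n).2 u
      exact ⟨b * c u * r, mul_mem (hbc u) hr, b * z, by linear_combination b * hz⟩
  choose β hβ using hβ
  obtain ⟨L, hL⟩ := limit hs β fun n => dvd_of_map h0 hO _ _ (by
    obtain ⟨x, hx⟩ := hβ n
    obtain ⟨y, hy⟩ := hβ (n + 1)
    obtain ⟨z, hz⟩ := hσ n
    exact ⟨ι s * y - x - b * z, by rw [map_sub]; linear_combination hy - hx - b * hz⟩)
  have hL' : ∀ n, ι s ^ (n + 1) ∣ ι (β n) - ι L := fun n => by
    simpa only [map_pow, map_sub] using map_dvd ι (hL n)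
  have h2 : ∀ u, ι L ∈ mults (R u) (b * c u) := fun u =>
    krull (hOR u s) (hm u) (hbc u) (hOR u L) fun n => by
      obtain ⟨_, ⟨r, hr, rfl⟩, z, hz⟩ := (σ n).2 u
      obtain ⟨x, hx⟩ := hβ n
      obtain ⟨y, hy⟩ := hL' n
      have e : ι L = b * c u * r + ι s ^ n * (ι s * (b * z - x - y)) := by
        linear_combination b * hz - hx - hy
      refine ⟨r, hr, _, sat_pow (hsat u) n _ ?_, e⟩
      rw [← sub_eq_iff_eq_add'.2 e]
      exact sub_mem (hOR u L) (mul_mem (hbc u) hr)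
  obtain ⟨r₀, -, e₀⟩ := h2 u₀
  refine ⟨c u₀ * r₀, sub_eq_zero.1 (hb' _ ?_), fun u => ?_⟩
  · obtain ⟨x, hx⟩ := hβ 0
    obtain ⟨y, hy⟩ := hL' 0
    rw [← map_sub, ← map_mul, hρ]
    rw [hσ0] at hx
    exact ⟨-x - y, by linear_combination -e₀ - hx - hy⟩
  · obtain ⟨r, hr, e⟩ := h2 u
    exact ⟨r, hr, sub_eq_zero.1 (hb _ (by linear_combination e - e₀))⟩

theorem mem_iff {L : Type*} [Field L] {ρ : P →+* L} {S : Subring P} (C : Pˣ) (l : L) :
    l / ρ C ∈ S.map ρ ↔ ∃ x ∈ mults S C, ρ x = l := by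
  have h : ρ C ≠ 0 := (C.isUnit.map ρ).ne_zero
  constructor
  · rintro ⟨r, hr, e⟩
    exact ⟨_, ⟨r, hr, rfl⟩, by rw [map_mul, e, mul_div_cancel₀ _ h]⟩
  · rintro ⟨_, ⟨r, hr, rfl⟩, rfl⟩
    exact ⟨r, hr, by rw [map_mul, mul_div_cancel_left₀ _ h]⟩

theorem gen {O : Type} [CommRing O] [IsLocalRing O] [IsNoetherianRing O]
    [IsAdicComplete (maximalIdeal O) O] {R : Type} [CommRing R] [IsDomain R] {L : Type} [Field L]
    {ι : O →+* R} {red : R →+* L} {s : O} {Y : Type} [TopologicalSpace Y] [CompactSpace Y]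
    {Oy : Y → Subring R} [∀ y, IsLocalRing (Oy y)] [∀ y, IsNoetherianRing (Oy y)] {C : Y → Rˣ}
    (hs : s ∈ maximalIdeal O) (hs0 : ι s ≠ 0) (hsurj : Function.Surjective red)
    (hker : ∀ r, red r = 0 ↔ ι s ∣ r) (hO : ∀ o, red (ι o) = 0 → s ∣ o)
    (hfrac : ∀ r, ∃ a b : O, red (ι b) ≠ 0 ∧ r * ι b = ι a)
    (hOR : ∀ y o, ι o ∈ Oy y) (hsat : ∀ y r, ι s * r ∈ Oy y → r ∈ Oy y)
    (hloc : ∀ y, ∀ r ∈ Oy y, ∀ᶠ y' in 𝓝 y, r ∈ Oy y')
    (hG : ∀ l, (∀ y, l ∈ (Oy y).map red) → ∃ o, red (ι o) = l)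
    (hC : ∀ y, ∀ᶠ y' in 𝓝 y, ((C y' / C y : Rˣ) : R) ∈ Oy y' ∧ ((C y / C y' : Rˣ) : R) ∈ Oy y')
    (hcou : ∀ κ : Y → L, (∀ y, ∀ᶠ y' in 𝓝 y, (κ y' - κ y) / red (C y') ∈ (Oy y').map red) →
      ∃ κ₀, ∀ y, (κ₀ - κ y) / red (C y) ∈ (Oy y).map red)
    {σ : L} (hσ : ∀ y, σ / red (C y) ∈ (Oy y).map red) :
    ∃ h : R, red h = σ ∧ ∀ y, h * (((C y)⁻¹ : Rˣ) : R) ∈ Oy y := by
  classical
  choose a b hb hab using hfrac
  obtain ⟨t, ht⟩ := CompactSpace.elim_nhds_subcover _ fun y => hC y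
  have hb' : red (ι (∏ y ∈ t, b (C y))) ≠ 0 := by
    rw [map_prod, map_prod]
    exact Finset.prod_ne_zero_iff.2 fun y _ => hb _
  obtain ⟨h, h1, h2⟩ := lift (ι := ι) (R := Oy) (c := fun y => (C y : R)) (ρ := red)
    (b := ι (∏ y ∈ t, b (C y))) hs (fun y hy => (mul_eq_zero.1 hy).resolve_left hs0) hker hsurj
    (fun o ho => hO o ((hker _).2 ho)) hOR
    (fun u hu => one_ne_zero (α := L) (by
      rw [← red.map_one, hker]
      exact (hu.map (Oy u).subtype).dvd))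
    hsat (fun u => (C u).isUnit)
    (fun y hy => (mul_eq_zero.1 hy).resolve_left fun e => hb' (by rw [e, map_zero]))
    (fun y hy => (mul_eq_zero.1 hy).resolve_left hb')
    (fun u => by
      obtain ⟨y, hy, hu⟩ := Set.mem_iUnion₂.1 (ht.ge (Set.mem_univ u))
      have e : ι (∏ y ∈ t, b (C y)) * C u =
          ι ((∏ z ∈ t.erase y, b (C z)) * a (C y)) * ((C u / C y : Rˣ) : R) := by
        rw [← Finset.mul_prod_erase t _ hy, map_mul, map_mul, ← hab, div_eq_mul_inv,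
          Units.val_mul]
        linear_combination (-(ι (b (C y)) * ι (∏ z ∈ t.erase y, b (C z)) * C u)) * (C y).mul_inv
      rw [e]
      exact mul_mem (hOR u _) hu.1)
    (by
      rintro u _ ⟨r, hr, rfl⟩
      filter_upwards [hloc u r hr, hC u] with w h1 h2
      refine ⟨_, mul_mem h2.2 h1, ?_⟩
      rw [← mul_assoc, ← Units.val_mul, mul_div_cancel])
    (fun κ hκ => by
      obtain ⟨g, hg⟩ := hcou κ fun y => (hκ y).mono fun w hw => by
        obtain ⟨x, hx, e⟩ := hw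
        exact (mem_iff _ _).2 ⟨-x, neg_mem hx, by rw [map_neg, e, neg_sub]⟩
      exact ⟨g, fun u => (mem_iff _ _).1 (hg u)⟩)
    hG σ fun u => (mem_iff _ _).1 (hσ u)
  refine ⟨h, h1, fun y => ?_⟩
  obtain ⟨r, hr, rfl⟩ := h2 y
  rwa [mul_comm, Units.inv_mul_cancel_left]

end Lift

theorem liftAPI : LiftAPI := by
  intro O _ _ _ _ R _ _ _ L _ ι red s Y _ _ Oy _ _ C h1 h2 h3 h4 h5 h6 h7 h8 h9 h10 h11 h12 σ h13
  exact Lift.gen h1 h2 h3 h4 h5 h6 h7 h8 h9 h10 h11 h12 h13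

end Pool.Agent.MP_648617_ag.Amp

end MrgPart3

-- ======== part 4: formerly Pool.Agent.MP_648617_ag.amp.Hart
section MrgPart4

/-!
The algebraic Hartogs lemma.
-/

open AlgebraicGeometry CategoryTheory TopologicalSpace IsLocalRing Filter Topology

noncomputable section

namespace Pool.Agent.MP_648617_ag.Amp

theorem height_eq_one {R : Type} [CommRing R] [IsDomain R] [IsNoetherianRing R]
    [IsIntegrallyClosed R] {y b : R} (hb : b ≠ 0) {p : Ideal R} [hp : p.IsPrime]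
    (h : ∀ t, t ∈ p ↔ b ∣ t * y) : p.height = 1 := by
  have hbp : b ∈ p := (h b).2 (dvd_mul_right _ _)
  refine le_antisymm ?_ (Order.one_le_iff_ne_zero.2 fun h0 => hb ?_)
  · by_cases H : ∀ x ∈ p, ∀ t, x * y = b * t → t ∈ p
    · let K := FractionRing R
      have hi := IsFractionRing.injective R K
      have hbK : algebraMap R K b ≠ 0 := fun e => hb (hi (e.trans (map_zero _).symm))
      have hint : IsIntegral R (algebraMap R K y / algebraMap R K b) := by
        refine isIntegral_of_smul_mem_submodule (Submodule.map (Algebra.linearMap R K) p)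
          (fun e => hbK ?_) ((IsNoetherian.noetherian p).map _) _ ?_
        · exact (Submodule.mem_bot R).1 (e ▸ Submodule.mem_map_of_mem hbp)
        · rintro _ ⟨x, hx, rfl⟩
          obtain ⟨t, e⟩ := (h x).1 hx
          refine ⟨t, H x hx t e, ?_⟩
          simp only [Algebra.linearMap_apply, smul_eq_mul]
          rw [div_mul_eq_mul_div, eq_div_iff hbK, ← map_mul, ← map_mul, mul_comm t, ← e, mul_comm]
      obtain ⟨c, hc⟩ := IsIntegrallyClosed.isIntegral_iff.1 hint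
      refine absurd ((Ideal.eq_top_iff_one p).2 ((h 1).2 ⟨c, hi ?_⟩)) hp.ne_top
      rw [one_mul, map_mul, hc, mul_div_cancel₀ _ hbK]
    · push Not at H
      obtain ⟨π, hπ, t, e, ht⟩ := H
      refine Ideal.height_le_one_of_isPrincipal_of_mem_minimalPrimes (Ideal.span {π}) p
        ⟨⟨hp, (Ideal.span_singleton_le_iff_mem p).2 hπ⟩, fun q hq hqp x hx => ?_⟩
      obtain ⟨u, e'⟩ := (h x).1 hx
      have e2 : x * t = π * u := mul_left_cancel₀ hb (by linear_combination π * e' - x * e)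
      have hπq : π ∈ q := (Ideal.span_singleton_le_iff_mem q).1 hq.2
      exact (hq.1.mem_or_mem (e2 ▸ q.mul_mem_right u hπq)).resolve_right fun h' => ht (hqp h')
  · rw [Ideal.height_eq_zero_iff_eq_bot] at h0
    exact (Submodule.mem_bot R).1 (h0 ▸ hbp)

theorem hartAPI : HartAPI := by
  intro R _ _ _ _ a b hb H
  by_contra hab
  obtain ⟨p, hp, hle⟩ := exists_le_isAssociatedPrime_of_isNoetherianRing R
    (Ideal.Quotient.mk (Ideal.span {b}) a) fun e =>
      hab (Ideal.mem_span_singleton.1 (Ideal.Quotient.eq_zero_iff_mem.1 e))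
  have key : ∀ t y : R, t ∈ (⊥ : Submodule R (R ⧸ Ideal.span {b})).colon
      {Ideal.Quotient.mk (Ideal.span {b}) y} ↔ b ∣ t * y := fun t y => by
    rw [Submodule.mem_colon_singleton, Submodule.mem_bot, Algebra.smul_def,
      Ideal.Quotient.algebraMap_eq, ← map_mul, Ideal.Quotient.eq_zero_iff_mem,
      Ideal.mem_span_singleton]
  obtain ⟨hp, y, e⟩ := isAssociatedPrime_iff.1 hp
  obtain ⟨y, rfl⟩ := Ideal.Quotient.mk_surjective y
  obtain ⟨t, ht, h⟩ := H p hp (height_eq_one hb fun t => by rw [e, key])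
  exact ht (hle ((key t a).2 h))

theorem hartSchAPI : HartSchAPI := by
  intro W _ _ hW V y hy r hr
  obtain ⟨_, ⟨N, hN, rfl⟩, hyN, hNV⟩ := W.isBasis_affineOpens.exists_subset_of_mem_open hy V.2
  obtain ⟨a, b, hb, rfl⟩ := IsFractionRing.div_surjective (A := W.presheaf.stalk y) r
  have hb0 : b ≠ 0 := nonZeroDivisors.ne_zero hb
  have hbK : algebraMap _ W.functionField b ≠ 0 := fun e =>
    hb0 (alg_inj y (e.trans (map_zero _).symm))
  obtain ⟨c, rfl⟩ := hartAPI _ a b hb0 fun p hp h1 => by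
    let := W.presheaf.algebra_section_stalk ⟨y, hyN⟩
    have := hN.isLocalization_stalk ⟨y, hyN⟩
    let q : PrimeSpectrum Γ(W, N) := ⟨p.comap (algebraMap Γ(W, N) _), inferInstance⟩
    have hz : hN.fromSpec q ∈ N := (hN.isoSpec.inv _).2
    let : Algebra Γ(W, N) (W.presheaf.stalk (hN.fromSpec q)) :=
      W.presheaf.algebra_section_stalk ⟨hN.fromSpec q, hz⟩
    have : IsLocalization.AtPrime (W.presheaf.stalk (hN.fromSpec q)) q.asIdeal :=
      hN.isLocalization_stalk' q hz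
    have hc : Order.coheight (hN.fromSpec q) = 1 := by
      have e := ringKrullDim_stalk_eq_coheight (hN.fromSpec q)
      have e' : q.asIdeal.height = p.height :=
        IsLocalization.height_under (hN.primeIdealOf ⟨y, hyN⟩).asIdeal.primeCompl p
      rw [IsLocalization.AtPrime.ringKrullDim_eq_height q.asIdeal, e', h1] at e
      exact_mod_cast e.symm
    obtain ⟨a', b', hb', e⟩ := (loc_affine hN hz _).1 (hr _ (hNV hz) hc)
    refine ⟨W.presheaf.germ N y hyN b', fun h => ?_, W.presheaf.germ N y hyN a', alg_inj y ?_⟩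
    · exact (IsLocalization.AtPrime.isUnit_to_map_iff _ q.asIdeal b').1
        ((Scheme.mem_basicOpen W b' _ hz).1 hb') h
    · rw [map_mul, map_mul, alg_germ, alg_germ, ← e]
      field_simp
  exact ⟨c, by rw [map_mul]; field_simp⟩

end Pool.Agent.MP_648617_ag.Amp

end
end MrgPart4

-- ======== part 5: formerly Pool.Agent.MP_648617_ag.kol.AmpSpec
section MrgPart5

/-! PROJECT KOL: the interface of the bridge from the central fibre to the total space. -/

open AlgebraicGeometry CategoryTheory TopologicalSpace IsLocalRing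

noncomputable section

namespace Pool.Agent.MP_648617_ag

/-- The vector fields form a plane with a basis dual to two functions. -/
def TwoFields {B O K : Type} [CommRing B] [CommRing O] [Field K] (β : B →+* O) (ι : O →+* K) :
    Prop :=
  ∃ (x y : K) (X Y : Derivation ℤ K K), IsField β ι X ∧ IsField β ι Y ∧ X x = 1 ∧ X y = 0 ∧
    Y x = 0 ∧ Y y = 1 ∧ ∀ D, IsField β ι D → ∀ k, D k = D x * X k + D y * Y k

/-- Global pluricanonical forms generate near every point. -/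
def SemiAmple {B O : Type} [CommRing B] [CommRing O] (β : B →+* O) {W : Scheme.{0}}
    [IsIntegral W] (F : W ⟶ Spec (.of O)) : Prop :=
  ∀ y : W, ∃ (e : Form W.functionField) (V : W.Opens), 0 < e.n ∧ y ∈ V ∧ IsAffineOpen V ∧
    ∀ z : W, Order.coheight z = 1 → e.RegularAt β (toField F) (localRing z) ∧
      (z ∈ V → e.GeneratesAt β (toField F) (localRing z))

/-- Ample on the central fibre implies semiample on the total space. -/
def AmpAPI : Prop :=
  ∀ (A : Type) [CommRing A] [Algebra ℂ A] [IsDomain A],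
    (∃ x t : A, x ≠ 0 ∧ ∀ a, ¬IsUnit a ↔ a ∈ (Ideal.span {x, t}).radical) →
    ∀ (E : Defo A (PowerSeries ℂ)) (U : Scheme.{0}) [IsIntegral U] (f : U ⟶ Spec (.of A)),
      IsModification f → IsIso f.appTop →
      ∀ (W : Scheme.{0}) [IsIntegral W] (F : W ⟶ Spec (.of E.O)) (j : U ⟶ W),
        IsPullback j f F (Spec.map (CommRingCat.ofHom E.π.toRingHom)) → IsModification F →
        IsIso F.appTop → (∀ y : W, IsIntegrallyClosed (W.presheaf.stalk y)) →
        QGorenstein (algebraMap (PowerSeries ℂ) E.O) F →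
        AmpleOnFibre (algebraMap (PowerSeries ℂ) E.O) F j →
        TwoFields (algebraMap (PowerSeries ℂ) E.O) (toField F) →
        SemiAmple (algebraMap (PowerSeries ℂ) E.O) F

end Pool.Agent.MP_648617_ag

end
end MrgPart5

-- ======== part 6: formerly Pool.Agent.MP_648617_ag.amp.Red
section MrgPart6

/-!
Restriction of functions from the total space of a smoothing to the central fibre.
-/

open AlgebraicGeometry CategoryTheory TopologicalSpace IsLocalRing Filter Topology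

noncomputable section

namespace Pool.Agent.MP_648617_ag.Amp

theorem toK_inj {O : Type} [CommRing O] {W : Scheme.{0}} [IsIntegral W] (F : W ⟶ Spec (.of O))
    [IsIso F.appTop] : Function.Injective (toField F) :=
  (germ_injective_of_isIntegral W _ _).comp
    (ConcreteCategory.bijective_of_isIso ((Scheme.ΓSpecIso (.of O)).inv ≫ F.appTop)).1

/-- The map from the base to a local ring. -/
def toSt {O : Type} [CommRing O] {W : Scheme.{0}} (F : W ⟶ Spec (.of O)) (w : W) :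
    O →+* W.presheaf.stalk w :=
  ((Scheme.ΓSpecIso (.of O)).inv ≫ F.appTop ≫ W.presheaf.germ ⊤ w (Opens.mem_top _)).hom

section

variable {O : Type} [CommRing O] {W : Scheme.{0}} (F : W ⟶ Spec (.of O))

theorem spec_toSt (w : W) : W.fromSpecStalk w ≫ F = Spec.map (CommRingCat.ofHom (toSt F w)) := by
  rw [toSt, CommRingCat.ofHom_hom, Spec.map_comp, Spec.map_comp, Category.assoc,
    ← Scheme.fromSpecStalk_toSpecΓ, Category.assoc, ← Scheme.toSpecΓ_naturality_assoc,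
    ← SpecMap_ΓSpecIso_hom, ← Spec.map_comp, Iso.inv_hom_id, Spec.map_id, Category.comp_id]

theorem alg_toSt [IsIntegral W] (w : W) (o : O) :
    algebraMap _ W.functionField (toSt F w o) = toField F o :=
  alg_germ (Opens.mem_top w) _

theorem mem_iff_toSt (w : W) (o : O) : o ∈ (F w).asIdeal ↔ ¬IsUnit (toSt F w o) := by
  have h := congrArg (fun g : Spec (W.presheaf.stalk w) ⟶ Spec (.of O) => g (closedPoint _))
    (spec_toSt F w)
  simp only [Scheme.Hom.comp_apply, Scheme.fromSpecStalk_closedPoint] at h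
  rw [h]
  rfl

variable {A : Type} [CommRing A] {U : Scheme.{0}} {f : U ⟶ Spec (.of A)} {F} {j : U ⟶ W}
  {π : O →+* A} (pb : IsPullback j f F (Spec.map (CommRingCat.ofHom π)))

include pb

theorem stalkMap_toSt (y : U) (o : O) : j.stalkMap y (toSt F (j y) o) = toSt f y (π o) := by
  have h : Spec.map (CommRingCat.ofHom (toSt F (j y)) ≫ j.stalkMap y) =
      Spec.map (CommRingCat.ofHom π ≫ CommRingCat.ofHom (toSt f y)) := by
    rw [Spec.map_comp, Spec.map_comp, ← spec_toSt, ← spec_toSt,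
      Scheme.SpecMap_stalkMap_fromSpecStalk_assoc, pb.w, Category.assoc]
  exact congrArg (fun g => g.hom o) (Spec.map_inj.1 h)

variable (hπ : Function.Surjective π) {s : O} (hs : RingHom.ker π = Ideal.span {s})

include hπ

theorem closedImm : IsClosedImmersion j :=
  MorphismProperty.of_isPullback pb.flip (IsClosedImmersion.spec_of_surjective _ hπ)

include hs

theorem exists_point (w : W) (hw : ¬IsUnit (toSt F w s)) :
    ∃ (y : U) (ψ : U.presheaf.stalk y ⟶ .of (W.presheaf.stalk w ⧸ Ideal.span {toSt F w s})),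
      j y = w ∧ Spec.map (j.stalkMap y ≫ ψ) ≫ W.fromSpecStalk (j y) =
        Spec.map (CommRingCat.ofHom (Ideal.Quotient.mk _)) ≫ W.fromSpecStalk w := by
  let I : Ideal (W.presheaf.stalk w) := Ideal.span {toSt F w s}
  have : Nontrivial (W.presheaf.stalk w ⧸ I) :=
    Ideal.Quotient.nontrivial_iff.2 fun h => hw (Ideal.span_singleton_eq_top.1 h)
  have : IsLocalHom (Ideal.Quotient.mk I) :=
    .of_surjective _ Ideal.Quotient.mk_surjective
  have : IsLocalRing (W.presheaf.stalk w ⧸ I) :=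
    .of_surjective' _ Ideal.Quotient.mk_surjective
  have hk : RingHom.ker π ≤ RingHom.ker ((Ideal.Quotient.mk I).comp (toSt F w)) := by
    rw [hs, Ideal.span_singleton_le_iff_mem]
    exact Ideal.Quotient.eq_zero_iff_mem.2 (Ideal.mem_span_singleton_self _)
  have w0 : (Spec.map (CommRingCat.ofHom (Ideal.Quotient.mk I)) ≫ W.fromSpecStalk w) ≫ F =
      Spec.map (CommRingCat.ofHom (π.liftOfSurjective hπ ⟨_, hk⟩)) ≫
        Spec.map (CommRingCat.ofHom π) := by
    rw [Category.assoc, spec_toSt, ← Spec.map_comp, ← Spec.map_comp, ← CommRingCat.ofHom_comp,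
      ← CommRingCat.ofHom_comp, RingHom.liftOfSurjective_comp]
  have h1 := pb.lift_fst _ _ w0
  generalize pb.lift _ _ w0 = l at h1
  refine ⟨l (closedPoint _), Scheme.stalkClosedPointTo l, ?_, ?_⟩
  · rw [← Scheme.Hom.comp_apply, h1, Scheme.Hom.comp_apply]
    exact (congrArg _ (comap_closedPoint (Ideal.Quotient.mk I))).trans
      Scheme.fromSpecStalk_closedPoint
  · refine Eq.trans ?_ h1
    rw [Spec.map_comp, Category.assoc, Scheme.SpecMap_stalkMap_fromSpecStalk,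
      Scheme.Spec_stalkClosedPointTo_fromSpecStalk_assoc]

theorem ker_stalkMap (y : U) (u : W.presheaf.stalk (j y)) :
    j.stalkMap y u = 0 ↔ toSt F (j y) s ∣ u := by
  have h0 : j.stalkMap y (toSt F (j y) s) = 0 := by
    rw [stalkMap_toSt pb, (RingHom.mem_ker (f := π)).1 (hs ▸ Ideal.mem_span_singleton_self s),
      map_zero]
  constructor
  · intro hu
    have := closedImm pb hπ
    obtain ⟨y', ψ, h, e⟩ := exists_point pb hπ hs (j y) fun h =>
      not_isUnit_zero (h0 ▸ h.map (j.stalkMap y).hom)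
    obtain rfl : y' = y := j.isClosedEmbedding.injective h
    have e' := congrArg (fun g => g.hom u) (Spec.map_inj.1 ((cancel_mono _).1 e))
    simp only [CommRingCat.hom_comp, RingHom.comp_apply] at e'
    rw [hu, map_zero] at e'
    exact Ideal.mem_span_singleton.1 (Ideal.Quotient.eq_zero_iff_mem.1 e'.symm)
  · rintro ⟨v, rfl⟩
    rw [map_mul, h0, zero_mul]

end

/-- The local ring as a subring of the function field. -/
def locEquiv {W : Scheme.{0}} [IsIntegral W] (w : W) : W.presheaf.stalk w ≃+* localRing w :=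
  RingEquiv.ofBijective (algebraMap (W.presheaf.stalk w) W.functionField).rangeRestrict
    ⟨fun _ _ h => alg_inj w (congrArg Subtype.val h), RingHom.rangeRestrict_surjective _⟩

theorem alg_spec {W : Scheme.{0}} [IsIntegral W] {z w : W} (h : z ⤳ w) (u : W.presheaf.stalk w) :
    algebraMap _ W.functionField (W.presheaf.stalkSpecializes h u) =
      algebraMap _ W.functionField u :=
  congrArg (fun g : W.presheaf.stalk w ⟶ W.functionField => g.hom u)
    (W.presheaf.stalkSpecializes_comp (genericPoint_specializes z) h)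

variable {A : Type} [CommRing A] [Algebra ℂ A]

/-- The parameter of the deformation. -/
abbrev par (E : Defo A (PowerSeries ℂ)) : E.O := algebraMap (PowerSeries ℂ) E.O PowerSeries.X

/-- The total space of a smoothing. -/
structure Total (E : Defo A (PowerSeries ℂ)) {U : Scheme.{0}} (f : U ⟶ Spec (.of A)) where
  W : Scheme.{0}
  [int : IsIntegral W]
  F : W ⟶ Spec (.of E.O)
  j : U ⟶ W
  pb : IsPullback j f F (Spec.map (CommRingCat.ofHom E.π.toRingHom))
  modW : IsModification F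
  glob : IsIso F.appTop
  normal : ∀ y : W, IsIntegrallyClosed (W.presheaf.stalk y)

attribute [instance] Total.int

variable {E : Defo A (PowerSeries ℂ)} {U : Scheme.{0}} {f : U ⟶ Spec (.of A)}

/-- The parameter `s` as a rational function. -/
def Total.s (𝒯 : Total E f) : 𝒯.W.functionField :=
  toField 𝒯.F (par E)

/-- The local ring of the total space at a point of the central fibre. -/
def Total.loc (𝒯 : Total E f) (y : U) : Subring 𝒯.W.functionField := localRing (𝒯.j y)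

/-- Restriction of functions to the central fibre. -/
structure Red [IsIntegral U] (𝒯 : Total E f) where
  r : 𝒯.loc (genericPoint U) →+* U.functionField
  alg : ∀ φ, r ⟨algebraMap _ _ φ, φ, rfl⟩ = 𝒯.j.stalkMap (genericPoint U) φ
  surj : Function.Surjective r
  ker : ∀ c, r c = 0 ↔ ∃ c' ∈ 𝒯.loc (genericPoint U), (c : 𝒯.W.functionField) = 𝒯.s * c'
  le : ∀ y, 𝒯.loc y ≤ 𝒯.loc (genericPoint U)
  mem : ∀ y c (hc : c ∈ 𝒯.loc y), r ⟨c, le y hc⟩ ∈ localRing y
  lift : ∀ y, ∀ φ ∈ localRing y, ∃ (c : _) (hc : c ∈ 𝒯.loc y), r ⟨c, le y hc⟩ = φ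
  sat : ∀ y, ∀ c' ∈ 𝒯.loc (genericPoint U), 𝒯.s * c' ∈ 𝒯.loc y → c' ∈ 𝒯.loc y
  unit : ∀ y c (hc : c ∈ 𝒯.loc y), r ⟨c, le y hc⟩ ≠ 0 → (r ⟨c, le y hc⟩)⁻¹ ∈ localRing y →
    c⁻¹ ∈ 𝒯.loc y
  base : ∀ y o, toField 𝒯.F o ∈ 𝒯.loc y
  comm : ∀ o, r ⟨toField 𝒯.F o, base _ o⟩ = toField f (E.π o)
  s_ne : 𝒯.s ≠ 0
  nonunit : ∀ y, 𝒯.s⁻¹ ∉ 𝒯.loc y
  range : ∀ w : 𝒯.W, 𝒯.s⁻¹ ∉ localRing w → ∃ y, 𝒯.j y = w
  spec : ∀ w : 𝒯.W, ∃ y, w ⤳ 𝒯.j y
  coh : Order.coheight (𝒯.j (genericPoint U)) = 1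

variable (𝒯 : Total E f)

theorem ker_π (E : Defo A (PowerSeries ℂ)) :
    RingHom.ker E.π.toRingHom = Ideal.span {par E} := by
  have h := E.ker
  rwa [PowerSeries.maximalIdeal_eq_span_X, Ideal.map_span, Set.image_singleton] at h

theorem s_ne (E : Defo A (PowerSeries ℂ)) : par E ≠ 0 := fun h => by
  have := Module.Flat.isSMulRegular_of_nonZeroDivisors (M := E.O)
    (mem_nonZeroDivisors_of_ne_zero (PowerSeries.X_ne_zero (R := ℂ)))
  exact one_ne_zero (this (a₁ := 1) (a₂ := 0) (by simp [Algebra.smul_def, h]))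

theorem s_mem (E : Defo A (PowerSeries ℂ)) : par E ∈ maximalIdeal E.O := by
  obtain ⟨c, hc⟩ := IsGerm.res (par E)
  by_cases h : c = 0
  · simpa [h] using hc
  · have hu : IsUnit (PowerSeries.X - algebraMap ℂ (PowerSeries ℂ) c) :=
      PowerSeries.isUnit_iff_constantCoeff.2 (by simpa [PowerSeries.algebraMap_apply] using h)
    have := hu.map (algebraMap (PowerSeries ℂ) E.O)
    rw [map_sub, ← IsScalarTower.algebraMap_apply] at this
    exact absurd this hc

theorem locNoeth : IsLocallyNoetherian 𝒯.W :=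
  haveI := 𝒯.modW.2.1
  LocallyOfFiniteType.isLocallyNoetherian 𝒯.F

theorem toField_inj : Function.Injective (toField 𝒯.F) :=
  haveI := 𝒯.glob
  toK_inj 𝒯.F

variable [IsIntegral U]

theorem red_alg (y : U) (u : 𝒯.W.presheaf.stalk (𝒯.j y))
    (h : algebraMap _ 𝒯.W.functionField u ∈ 𝒯.loc (genericPoint U)) :
    𝒯.j.stalkMap (genericPoint U) ((locEquiv _).symm ⟨_, h⟩) =
      algebraMap _ U.functionField (𝒯.j.stalkMap y u) := by
  have hy := genericPoint_specializes y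
  have e : (locEquiv (𝒯.j (genericPoint U))).symm ⟨_, h⟩ =
      𝒯.W.presheaf.stalkSpecializes (hy.map 𝒯.j.continuous) u :=
    (locEquiv _).symm_apply_eq.2 (Subtype.ext (alg_spec _ u).symm)
  rw [e]
  exact 𝒯.j.stalkSpecializes_stalkMap_apply _ _ hy u

theorem Total.red : Nonempty (Red 𝒯) := by
  have hπ : Function.Surjective E.π.toRingHom := E.surj
  have := closedImm 𝒯.pb hπ
  have := locNoeth 𝒯
  have := 𝒯.modW.2.1
  have hk := ker_stalkMap 𝒯.pb hπ (ker_π E)
  have hle : ∀ y, 𝒯.loc y ≤ 𝒯.loc (genericPoint U) := fun y =>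
    loc_le ((genericPoint_specializes y).map 𝒯.j.continuous)
  have hs : ∀ w, algebraMap _ 𝒯.W.functionField (toSt 𝒯.F w (par E)) =
      𝒯.s := fun w => alg_toSt _ _ _
  have hs0 : 𝒯.s ≠ 0 := fun h => s_ne E (toField_inj 𝒯 (h.trans (map_zero _).symm))
  have hu : ∀ w : 𝒯.W, 𝒯.s⁻¹ ∈ localRing w ↔
      IsUnit (toSt 𝒯.F w (par E)) := fun w => by
    rw [isUnit_iff, hs]
    exact ⟨fun h => ⟨_, h, mul_inv_cancel₀ hs0⟩,
      fun ⟨v, hv, e⟩ => eq_inv_of_mul_eq_one_right e ▸ hv⟩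
  have hn : ∀ y, ¬IsUnit (toSt 𝒯.F (𝒯.j y) (par E)) := fun y h =>
    not_isUnit_zero ((hk y _).2 dvd_rfl ▸ h.map (𝒯.j.stalkMap y).hom)
  have hr : ∀ w : 𝒯.W, 𝒯.s⁻¹ ∉ localRing w → ∃ y, 𝒯.j y = w := fun w hw =>
    (exists_point 𝒯.pb hπ (ker_π E) w fun h => hw ((hu w).2 h)).imp fun _ ⟨_, h, _⟩ => h
  refine ⟨⟨(𝒯.j.stalkMap (genericPoint U)).hom.comp (locEquiv _).symm.toRingHom,
    fun φ => congrArg (𝒯.j.stalkMap (genericPoint U)) ((locEquiv _).symm_apply_apply φ),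
    (𝒯.j.stalkMap_surjective _).comp (locEquiv _).symm.surjective, fun c => ?_, hle,
    ?_, ?_, ?_, ?_, fun y o => toK_mem_loc _ o _, fun o => ?_, hs0, fun y h => hn y ((hu _).1 h),
    hr, fun w => ?_, ?_⟩⟩
  · obtain ⟨u, rfl⟩ := (locEquiv (𝒯.j (genericPoint U))).surjective c
    refine Iff.trans ?_ ((hk _ u).trans ⟨?_, ?_⟩)
    · exact (congrArg (fun v => 𝒯.j.stalkMap (genericPoint U) v = 0)
        ((locEquiv _).symm_apply_apply u)).to_iff
    · rintro ⟨v, rfl⟩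
      exact ⟨_, ⟨v, rfl⟩, (map_mul _ _ _).trans (by rw [hs])⟩
    · rintro ⟨_, ⟨v, rfl⟩, e⟩
      exact ⟨v, alg_inj _ (e.trans (by rw [map_mul, hs]))⟩
  · rintro y _ ⟨u, rfl⟩
    exact ⟨_, (red_alg 𝒯 y u _).symm⟩
  · rintro y _ ⟨v, rfl⟩
    obtain ⟨u, rfl⟩ := 𝒯.j.stalkMap_surjective y v
    exact ⟨_, ⟨u, rfl⟩, red_alg 𝒯 y u _⟩
  · rintro y _ ⟨c, rfl⟩ ⟨u, e⟩
    have h1 := red_alg 𝒯 y u (hle y ⟨u, rfl⟩)
    have h2 : (locEquiv (𝒯.j (genericPoint U))).symm ⟨_, hle y ⟨u, rfl⟩⟩ =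
        toSt 𝒯.F _ (par E) * c :=
      (locEquiv _).symm_apply_eq.2 (Subtype.ext (e.trans (by rw [← hs, ← map_mul]; rfl)))
    rw [h2, (hk _ _).2 (dvd_mul_right _ _)] at h1
    obtain ⟨v, rfl⟩ := (hk y u).1 (alg_inj y (h1.symm.trans (map_zero _).symm))
    rw [map_mul, hs] at e
    exact ⟨v, mul_left_cancel₀ hs0 e⟩
  · rintro y _ ⟨u, rfl⟩ h0 hi
    have h1 := red_alg 𝒯 y u (hle y ⟨u, rfl⟩)
    have h2 : IsUnit (𝒯.j.stalkMap y u) :=
      (isUnit_iff y _).2 ⟨_, hi, h1 ▸ mul_inv_cancel₀ h0⟩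
    obtain ⟨v, hv, e⟩ := (isUnit_iff _ u).1 (IsUnit.of_map (𝒯.j.stalkMap y).hom u h2)
    exact eq_inv_of_mul_eq_one_right e ▸ hv
  · have h2 : (locEquiv (𝒯.j (genericPoint U))).symm ⟨_, toK_mem_loc 𝒯.F o _⟩ = toSt 𝒯.F _ o :=
      (locEquiv _).symm_apply_eq.2 (Subtype.ext (alg_toSt _ _ _).symm)
    exact (congrArg (𝒯.j.stalkMap (genericPoint U)) h2).trans (stalkMap_toSt 𝒯.pb _ o)
  · have hc : IsClosed (𝒯.F '' closure {w}) := 𝒯.F.isClosedMap _ isClosed_closure
    obtain ⟨w', hw', e⟩ := (specializes_closedPoint (R := E.O) (𝒯.F w)).mem_closed hc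
      ⟨w, subset_closure rfl, rfl⟩
    obtain ⟨y, rfl⟩ := hr w' fun h => (mem_iff_toSt 𝒯.F w' _).1 (e ▸ s_mem E) ((hu _).1 h)
    exact ⟨y, specializes_iff_mem_closure.2 hw'⟩
  · have hm : maximalIdeal (𝒯.W.presheaf.stalk (𝒯.j (genericPoint U))) =
        Ideal.span {toSt 𝒯.F _ (par E)} := by
      ext u
      rw [Ideal.mem_span_singleton, ← hk, mem_maximalIdeal, mem_nonunits_iff,
        ← isUnit_map_iff (𝒯.j.stalkMap (genericPoint U)).hom]
      exact (not_congr (isUnit_iff_ne_zero (G₀ := U.functionField))).trans not_not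
    have e := ringKrullDim_stalk_eq_coheight (𝒯.j (genericPoint U))
    rw [← maximalIdeal_height_eq_ringKrullDim, hm,
      Ideal.height_span_singleton_eq_one_of_mem_nonZeroDivisors (mem_nonZeroDivisors_of_ne_zero
        fun h => hs0 (by rw [← hs, h, map_zero])) (hn _)] at e
    exact_mod_cast e.symm

end Pool.Agent.MP_648617_ag.Amp

end
end MrgPart6

-- ======== part 7: formerly Pool.Agent.MP_648617_ag.amp.Ample
section MrgPart7

/-!
If the canonical divisor of the central fibre is ample then that of the total space is semiample.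
-/

open AlgebraicGeometry CategoryTheory TopologicalSpace IsLocalRing Filter Topology

noncomputable section

namespace Pool.Agent.MP_648617_ag.Amp

section Field

variable {B O K : Type} [CommRing B] [CommRing O] [Field K] {β : B →+* O} {ι : O →+* K}
  {x y : K} {W : Subring K} {n : ℕ} {c c' g : K}

theorem val_eq {X Y : Derivation ℤ K K}
    (h : ∀ D, IsField β ι D → ∀ k, D k = D x * X k + D y * Y k) (e : Form K)
    {D E : Derivation ℤ K K} (hD : IsField β ι D) (hE : IsField β ι E) :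
    e.val D E = (Form.mk e.n (e.val X Y) x y).val D E := by
  simp only [Form.val]
  rw [h D hD e.a, h D hD e.b, h E hE e.a, h E hE e.b, mul_assoc, ← mul_pow]
  congr 2
  ring

theorem gen_congr {e e' : Form K}
    (h : ∀ D E, IsField β ι D → IsField β ι E → e.val D E = e'.val D E)
    (he : e.GeneratesAt β ι W) : e'.GeneratesAt β ι W := by
  obtain ⟨h1, D, E, hD, hE, u, hu, h2⟩ := he
  exact ⟨fun D E hD hE => h D E hD.1 hE.1 ▸ h1 D E hD hE, D, E, hD, hE, u, hu,
    h D E hD.1 hE.1 ▸ h2⟩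

theorem gen_ne (h : (Form.mk n c x y).GeneratesAt β ι W) : c ≠ 0 := by
  obtain ⟨-, D, E, -, -, u, -, h2⟩ := h
  rintro rfl
  simp [Form.val] at h2

theorem gen_div (h : (Form.mk n c x y).GeneratesAt β ι W)
    (h' : (Form.mk n c' x y).RegularAt β ι W) : c' / c ∈ W := by
  have hc := gen_ne h
  obtain ⟨-, D, E, hD, hE, u, hu, h2⟩ := h
  have h3 := mul_mem (h' D E hD hE) hu
  simp only [Form.val] at h2 h3
  have e : c' / c = c' * (D x * E y - D y * E x) ^ n * u := by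
    rw [div_eq_iff hc]
    linear_combination (-c') * h2
  rwa [e]

theorem reg_mul (h : (Form.mk n c x y).RegularAt β ι W) (hg : g ∈ W) :
    (Form.mk n (g * c) x y).RegularAt β ι W := fun D E hD hE => by
  have := mul_mem hg (h D E hD hE)
  simpa only [Form.val, mul_assoc] using this

theorem gen_mul (h : (Form.mk n c x y).GeneratesAt β ι W) (hg : g ∈ W) (hg' : g⁻¹ ∈ W)
    (h0 : g ≠ 0) : (Form.mk n (g * c) x y).GeneratesAt β ι W := by
  obtain ⟨h1, D, E, hD, hE, u, hu, h2⟩ := h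
  refine ⟨reg_mul h1 hg, D, E, hD, hE, g⁻¹ * u, mul_mem hg' hu, ?_⟩
  simp only [Form.val] at h2 ⊢
  linear_combination g * g⁻¹ * h2 + mul_inv_cancel₀ h0

theorem gen_pow (h : (Form.mk n c x y).GeneratesAt β ι W) (k : ℕ) :
    (Form.mk (n * k) (c ^ k) x y).GeneratesAt β ι W := by
  obtain ⟨h1, D, E, hD, hE, u, hu, h2⟩ := h
  refine ⟨fun D E hD hE => ?_, D, E, hD, hE, u ^ k, pow_mem hu k, ?_⟩
  · have := pow_mem (h1 D E hD hE) k
    simpa only [Form.val, mul_pow, pow_mul] using this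
  · simp only [Form.val] at h2 ⊢
    rw [pow_mul, ← mul_pow, ← mul_pow, h2, one_pow]

end Field

section Near

variable {B O : Type} [CommRing B] [CommRing O] {β : B →+* O} {W : Scheme.{0}} [IsIntegral W]
  {F : W ⟶ Spec (.of O)} {x y : W.functionField} {n : ℕ} {c c' : W.functionField} {w : W}

theorem near_nhds {e : Form W.functionField} (h : e.GeneratesNear β F w) :
    ∀ᶠ w' in 𝓝 w, e.GeneratesNear β F w' := by
  obtain ⟨V, hV, h⟩ := h
  exact eventually_of_mem (V.2.mem_nhds hV) fun w' hw' => ⟨V, hw', h⟩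

theorem near_spec {e : Form W.functionField} (h : e.GeneratesNear β F w) {z : W} (hz : z ⤳ w) :
    e.GeneratesNear β F z := by
  obtain ⟨V, hV, h⟩ := h
  exact ⟨V, hz.mem_open V.2 hV, h⟩

theorem near_at {e : Form W.functionField} (h : e.GeneratesNear β F w)
    (hw : Order.coheight w = 1) : e.GeneratesAt β (toField F) (localRing w) := by
  obtain ⟨V, hV, h⟩ := h
  exact h w hV hw

theorem near_pow (h : (Form.mk n c x y).GeneratesNear β F w) (k : ℕ) :
    (Form.mk (n * k) (c ^ k) x y).GeneratesNear β F w := by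
  obtain ⟨V, hV, h⟩ := h
  exact ⟨V, hV, fun z hz h1 => gen_pow (h z hz h1) k⟩

theorem near_div [IsLocallyNoetherian W] (hW : ∀ y : W, IsIntegrallyClosed (W.presheaf.stalk y))
    (h : (Form.mk n c x y).GeneratesNear β F w) (h' : (Form.mk n c' x y).GeneratesNear β F w) :
    c' / c ∈ localRing w := by
  obtain ⟨V, hV, h⟩ := h
  obtain ⟨V', hV', h'⟩ := h'
  exact hartSchAPI W hW (V ⊓ V') w ⟨hV, hV'⟩ _ fun z hz h1 =>
    gen_div (h z hz.1 h1) (h' z hz.2 h1).1

end Near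

theorem dim_le {A : Type} [CommRing A] [IsLocalRing A] [IsNoetherianRing A] {x t : A}
    (h : ∀ a, ¬IsUnit a ↔ a ∈ (Ideal.span {x, t}).radical) : ringKrullDim A ≤ 2 := by
  have e : maximalIdeal A = (Ideal.span {x, t}).radical := Ideal.ext h
  have hm : maximalIdeal A ∈ (Ideal.span {x, t}).minimalPrimes :=
    ⟨⟨inferInstance, e ▸ Ideal.le_radical⟩, fun q hq _ => e ▸ (hq.1.radical_le_iff.2 hq.2)⟩
  have h1 := Ideal.height_le_card_of_mem_minimalPrimes_span (Set.toFinite _) hm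
  have h2 : ({x, t} : Set A).ncard ≤ 2 := by simpa using Set.ncard_insert_le x {t}
  rw [← maximalIdeal_height_eq_ringKrullDim]
  exact WithBot.coe_le_coe.2 (h1.trans (Nat.cast_le.2 h2))

variable {A : Type} [CommRing A] [Algebra ℂ A] {E : Defo A (PowerSeries ℂ)} {U : Scheme.{0}}
  [IsIntegral U] {f : U ⟶ Spec (.of A)} {𝒯 : Total E f} (ρ : Red 𝒯)

theorem Red.map_eq (y : U) :
    ((𝒯.loc y).comap (𝒯.loc (genericPoint U)).subtype).map ρ.r = loc y := by
  ext φ
  constructor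
  · rintro ⟨c, hc, rfl⟩
    exact ρ.mem y c hc
  · intro h
    obtain ⟨c, hc, rfl⟩ := ρ.lift y φ h
    exact ⟨_, hc, rfl⟩

/-- Sections lift from the central fibre. -/
theorem Red.lifts [IsIso f.appTop] [CompactSpace U] (C : U → (𝒯.loc (genericPoint U))ˣ)
    (hC : ∀ y, ∀ᶠ y' in 𝓝 y, ((C y' / C y).1 : 𝒯.W.functionField) ∈ 𝒯.loc y' ∧
      ((C y / C y').1 : 𝒯.W.functionField) ∈ 𝒯.loc y')
    (hc : Cousin fun y => ρ.r (C y)) (σ : U.functionField) (hσ : ∀ y, σ / ρ.r (C y) ∈ loc y) :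
    ∃ h, ρ.r h = σ ∧ ∀ y, ((h * ((C y)⁻¹).1 :) : 𝒯.W.functionField) ∈ 𝒯.loc y := by
  have := locNoeth 𝒯
  have := 𝒯.glob
  have : IsDomain E.O := isDomain_base 𝒯.F
  have : IsLocalRing (𝒯.loc (genericPoint U)) := (locEquiv _).isLocalRing
  let Oy : U → Subring (𝒯.loc (genericPoint U)) := fun y =>
    (𝒯.loc y).comap (𝒯.loc (genericPoint U)).subtype
  let q : ∀ y, 𝒯.W.presheaf.stalk (𝒯.j y) →+* Oy y := fun y =>
    ((algebraMap _ 𝒯.W.functionField).codRestrict _ fun u => ρ.le y ⟨u, rfl⟩).codRestrict _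
      fun u => ⟨u, rfl⟩
  have hq : ∀ y, Function.Surjective (q y) := fun y ⟨⟨_, _⟩, u, e⟩ =>
    ⟨u, Subtype.ext (Subtype.ext e)⟩
  have : ∀ y, IsLocalRing (Oy y) := fun y => .of_surjective' _ (hq y)
  have : ∀ y, IsNoetherianRing (Oy y) := fun y => isNoetherianRing_of_surjective _ _ _ (hq y)
  let ι : E.O →+* 𝒯.loc (genericPoint U) := (toField 𝒯.F).codRestrict _ (ρ.base _)
  have hι : ∀ o, ρ.r (ι o) = toField f (E.π o) := ρ.comm
  have hk : ∀ o, ρ.r (ι o) = 0 → par E ∣ o := fun o h => by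
    rw [← Ideal.mem_span_singleton, ← ker_π]
    exact toK_inj f (((hι o).symm.trans h).trans (map_zero _).symm)
  have hs : ι (par E) ≠ 0 := fun h => ρ.s_ne (congrArg Subtype.val h)
  have hr : ∀ r, ρ.r r = 0 ↔ ι (par E) ∣ r := fun r => (ρ.ker r).trans
    ⟨fun ⟨c, hc, e⟩ => ⟨⟨c, hc⟩, Subtype.ext e⟩, fun ⟨c, e⟩ => ⟨c, c.2, congrArg Subtype.val e⟩⟩
  refine liftAPI E.O _ _ ι ρ.r (par E) U Oy C (s_mem E) hs ρ.surj hr hk (fun r => ?_)
    (fun y o => ρ.base y o) (fun y r h => ρ.sat y r r.2 h)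
    (fun y r h => (𝒯.j.continuous.tendsto y).eventually (loc_nhds h)) (fun l hl => ?_) hC
    (fun κ hκ => ?_) σ fun y => (ρ.map_eq y).ge (hσ y)
  · obtain ⟨-, -, V, hV, hi⟩ := 𝒯.modW
    obtain ⟨a, b, hb, e⟩ := (frac 𝒯.F V hV).2 r
    have e' : r * ι b = ι a := Subtype.ext e
    clear e
    induction b using (wellFounded_dvdNotUnit (α := E.O)).induction generalizing a with
    | h b ih =>
      by_cases h : ρ.r (ι b) = 0
      · obtain ⟨b', rfl⟩ := hk b h
        obtain ⟨a', rfl⟩ := hk a (by rw [← e', map_mul ρ.r, h, mul_zero])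
        refine ih b' ⟨right_ne_zero_of_mul hb, par E, s_mem E, mul_comm _ _⟩ a'
          (right_ne_zero_of_mul hb) (mul_left_cancel₀ hs ?_)
        rw [← map_mul, ← e', map_mul, mul_left_comm]
      · exact ⟨a, b, h, e'⟩
  · obtain ⟨a, rfl⟩ := global f fun y => (ρ.map_eq y).le (hl y)
    obtain ⟨o, rfl⟩ := E.surj a
    exact ⟨o, hι o⟩
  · exact (hc κ fun y => (hκ y).mono fun y' h => (ρ.map_eq y').le h).imp fun _ h y =>
      (ρ.map_eq y).ge (h y)

theorem ampAPI : AmpAPI := by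
  rintro A _ _ _ ⟨x₀, t₀, hx₀, hrad⟩ E U _ f hf hf' W _ F j pb hF hF' hW ⟨n, hn, hQ⟩ hA
    ⟨x, y, X, Y, hX, hY, -, -, -, -, h2⟩
  let 𝒯 : Total E f := ⟨W, F, j, pb, hF, hF', hW⟩
  obtain ⟨ρ⟩ := 𝒯.red
  have : IsLocallyNoetherian W := locNoeth 𝒯
  have := hf.2.1
  have : CompactSpace U := QuasiCompact.compactSpace_of_compactSpace f
  have : IsLocalRing A := .of_surjective' E.π.toRingHom E.surj
  have : IsNoetherianRing A := isNoetherianRing_of_surjective _ _ E.π.toRingHom E.surj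
  have norm : ∀ (e : Form W.functionField) (w : W),
      e.GeneratesNear (algebraMap _ E.O) F w →
        (Form.mk e.n (e.val X Y) x y).GeneratesNear (algebraMap (PowerSeries ℂ) E.O) F w :=
    fun e w ⟨V, hV, h⟩ => ⟨V, hV, fun z hz h1 =>
      gen_congr (fun D E hD hE => val_eq h2 e hD hE) (h z hz h1)⟩
  obtain ⟨g, hg⟩ : ∃ g : U → W.functionField, ∀ u,
      (Form.mk n (g u) x y).GeneratesNear (algebraMap (PowerSeries ℂ) E.O) F (j u) := by
    choose e he hg using hQ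
    exact ⟨fun u => (e (j u)).val X Y, fun u => he (j u) ▸ norm _ _ (hg _)⟩
  have hsp : ∀ u, j (genericPoint U) ⤳ j u := fun u =>
    (genericPoint_specializes u).map j.continuous
  have hg0 : ∀ u, g u ≠ 0 := fun u => gen_ne (near_at (near_spec (hg u) (hsp u)) ρ.coh)
  let C : U → (𝒯.loc (genericPoint U))ˣ := fun u =>
    ⟨⟨g u / g (genericPoint U), near_div hW (hg _) (near_spec (hg u) (hsp u))⟩,
      ⟨g (genericPoint U) / g u, near_div hW (near_spec (hg u) (hsp u)) (hg _)⟩,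
      Subtype.ext (div_mul_div_cancel₀ (hg0 _) |>.trans (div_self (hg0 _))),
      Subtype.ext (div_mul_div_cancel₀ (hg0 _) |>.trans (div_self (hg0 _)))⟩
  have hCd : ∀ u u', ((C u / C u').1 : W.functionField) = g u / g u' := fun u u' =>
    div_mul_div_cancel₀ (hg0 _)
  have hC : ∀ (k : ℕ) u, ∀ᶠ u' in 𝓝 u, ((C u' ^ k / C u ^ k).1 : W.functionField) ∈ 𝒯.loc u' ∧
      ((C u ^ k / C u' ^ k).1 : W.functionField) ∈ 𝒯.loc u' := fun k u =>
    ((j.continuous.tendsto u).eventually (near_nhds (hg u))).mono fun u' h => by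
      simp only [← div_pow, Units.val_pow_eq_pow_val, SubmonoidClass.coe_pow, hCd]
      exact ⟨pow_mem (near_div hW h (hg u')) k, pow_mem (near_div hW (hg u') h) k⟩
  have hc0 : ∀ u, ρ.r (C u) ≠ 0 := fun u => ((C u).isUnit.map ρ.r).ne_zero
  have hrd : ∀ a b : (𝒯.loc (genericPoint U))ˣ, ρ.r (a / b).1 = ρ.r a / ρ.r b := fun a b => by
    rw [div_eq_mul_inv, div_eq_mul_inv, Units.val_mul, map_mul, map_units_inv]
  have hB : IsBundle fun u => ρ.r (C u) := ⟨hc0, fun u => (hC 1 u).mono fun u' h => by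
    simp only [pow_one] at h
    exact ⟨hrd _ _ ▸ ρ.mem u' _ h.1, hrd _ _ ▸ ρ.mem u' _ h.2⟩⟩
  have hAm : IsAmple fun u => ρ.r (C u) := fun u => by
    obtain ⟨ε, N, hm, hu, hN, h⟩ := hA u
    have key : ∀ u', ∃ hS : ε.val X Y ^ n / g (genericPoint U) ^ ε.n ∈ 𝒯.loc (genericPoint U),
        ρ.r ⟨_, hS⟩ / ρ.r (C u') ^ ε.n ∈ loc u' ∧
          (u' ∈ N ↔ ∃ v ∈ loc u', ρ.r ⟨_, hS⟩ / ρ.r (C u') ^ ε.n * v = 1) := fun u' => by
      obtain ⟨r, ⟨e, φ, he, hge, hv, hr⟩, hN⟩ := h u'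
      have h3 := near_pow (he ▸ norm e _ hge) n
      have h4 := mul_comm n ε.n ▸ near_pow (hg u') ε.n
      have h5 := near_div hW h4 h3
      have h6 := near_div hW h3 h4
      have h7 : e.val X Y ^ n ≠ 0 := gen_ne (near_at (near_spec h3 (hsp u')) ρ.coh)
      let a : 𝒯.loc (genericPoint U) := ⟨_, ρ.le u' h5⟩
      let b : 𝒯.loc (genericPoint U) := ⟨_, ρ.le u' h6⟩
      have hab : ρ.r a * ρ.r b = 1 := by
        rw [← map_mul, ← map_one ρ.r]
        exact congrArg _ (Subtype.ext (div_mul_div_cancel₀ (pow_ne_zero _ (hg0 _)) |>.trans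
          (div_self h7)))
      let S : 𝒯.loc (genericPoint U) := ⟨algebraMap _ _ φ, φ, rfl⟩ ^ n * a * (C u').1 ^ ε.n
      have hS : (S : W.functionField) = ε.val X Y ^ n / g (genericPoint U) ^ ε.n := by
        have := hg0 u'
        change algebraMap _ W.functionField φ ^ n * (e.val X Y ^ n / g u' ^ ε.n) *
          (g u' / g (genericPoint U)) ^ ε.n = _
        rw [hv X Y hX hY, mul_pow, div_pow]
        field_simp
      have hS' : ρ.r ⟨_, hS ▸ S.2⟩ / ρ.r (C u') ^ ε.n =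
          algebraMap _ U.functionField r ^ n * ρ.r a := by
        rw [show (⟨_, hS ▸ S.2⟩ : 𝒯.loc (genericPoint U)) = S from Subtype.ext hS.symm,
          map_mul, map_mul, map_pow, map_pow, mul_div_cancel_right₀ _ (pow_ne_zero _ (hc0 u')),
          ρ.alg, ← hr]
      refine ⟨hS ▸ S.2, ?_⟩
      rw [hS', hN, ← isUnit_pow_iff hn.ne', isUnit_iff, map_pow]
      refine ⟨mul_mem (pow_mem (show _ ∈ loc u' from ⟨r, rfl⟩) n) (ρ.mem u' _ h5), fun ⟨v, hv, e⟩ =>
        ⟨ρ.r b * v, mul_mem (ρ.mem u' _ h6) hv, ?_⟩, fun ⟨v, hv, e⟩ =>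
        ⟨ρ.r a * v, mul_mem (ρ.mem u' _ h5) hv, ?_⟩⟩
      · linear_combination (algebraMap _ U.functionField r ^ n * v) * hab + e
      · linear_combination e
    choose hS h1 h2 using key
    have h0 : ρ.r ⟨_, hS u⟩ ≠ 0 := fun h0 => by
      obtain ⟨v, -, e⟩ := (h2 u).1 hu
      simp [h0] at e
    refine ⟨ε.n, ρ.r ⟨_, hS u⟩, N, hm, h0, hu, hN, fun u' => ⟨h1 u', (h2 u').trans
      ⟨fun ⟨v, hv, e⟩ => ?_, fun h => ⟨_, h, ?_⟩⟩⟩⟩
    · rwa [← inv_div, ← eq_inv_of_mul_eq_one_right e]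
    · exact div_mul_div_cancel₀ (pow_ne_zero _ (hc0 u')) |>.trans (div_self h0)
  obtain ⟨-, -, V₀, hV₀, hi⟩ := hf
  obtain ⟨k₀, hk₀⟩ := cousinAPI A (dim_le hrad) (fun h => hx₀ ((Submodule.mem_bot A).1 (h ▸
    (hrad x₀).2 (Ideal.le_radical (Ideal.subset_span (Set.mem_insert _ _)))))) U f
    (frac f V₀ hV₀).1 (frac f V₀ hV₀).2 _ hB hAm
  intro w
  obtain ⟨u, hwu⟩ := ρ.spec w
  obtain ⟨m, σ, N, hm, hσ, hu, -, h⟩ := hAm u
  obtain ⟨H, hH, hH'⟩ := ρ.lifts (fun u => C u ^ (m * (k₀ + 1))) (hC _)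
    (by simpa only [Units.val_pow_eq_pow_val, map_pow] using hk₀ _ (by nlinarith))
    (σ ^ (k₀ + 1)) fun u' => by
      rw [Units.val_pow_eq_pow_val, map_pow, pow_mul, ← div_pow]
      exact pow_mem (h u').1 _
  set k := m * (k₀ + 1) with hk
  let q : U → W.functionField := fun u' => (H * ((C u' ^ k)⁻¹).1 :)
  have hq : ∀ u', q u' * g u' ^ k = H * g (genericPoint U) ^ k := fun u' => by
    have := hg0 u'
    have e : q u' = H * (g (genericPoint U) / g u') ^ k := by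
      simp only [q, ← inv_pow, Units.val_pow_eq_pow_val, MulMemClass.coe_mul,
        SubmonoidClass.coe_pow]
      rfl
    rw [e, div_pow]
    field_simp
  have hrq : ρ.r ⟨q u, ρ.le u (hH' u)⟩ = (σ / ρ.r (C u) ^ m) ^ (k₀ + 1) := by
    change ρ.r (H * ((C u ^ k)⁻¹).1) = _
    rw [map_mul, hH, map_units_inv, Units.val_pow_eq_pow_val, map_pow, div_pow, ← pow_mul,
      div_eq_mul_inv]
  have hr0 : ρ.r ⟨q u, ρ.le u (hH' u)⟩ ≠ 0 :=
    hrq ▸ pow_ne_zero _ (div_ne_zero hσ (pow_ne_zero _ (hc0 u)))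
  have hq0 : q u ≠ 0 := fun h0 => hr0 (by
    rw [show (⟨q u, ρ.le u (hH' u)⟩ : 𝒯.loc (genericPoint U)) = 0 from Subtype.ext h0, map_zero])
  have hqi : (q u)⁻¹ ∈ loc (j u) := ρ.unit u _ (hH' u) hr0 (by
    rw [hrq, ← inv_pow, inv_div]
    exact pow_mem ((h u).2.1 hu) _)
  obtain ⟨V', hV', hVo, huV⟩ := eventually_nhds_iff.1
    ((near_nhds (hg u)).and ((loc_nhds (hH' u)).and (loc_nhds hqi)))
  obtain ⟨_, ⟨V, hV, rfl⟩, hjV, hVV⟩ := W.isBasis_affineOpens.exists_subset_of_mem_open huV hVo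
  refine ⟨⟨n * k, H * g (genericPoint U) ^ k, x, y⟩, V, Nat.mul_pos hn (Nat.mul_pos hm k₀.succ_pos),
    hwu.mem_open V.2 hjV, hV, fun z hz => ⟨?_, fun hzV => ?_⟩⟩
  · obtain ⟨u', hu'⟩ := ρ.spec z
    rw [← hq u']
    exact reg_mul (gen_pow (near_at (near_spec (hg u') hu') hz) k).1 (loc_le hu' (hH' u'))
  · obtain ⟨h1, h2, h3⟩ := hV' z (hVV hzV)
    rw [← hq u]
    exact gen_mul (gen_pow (near_at h1 hz) k) h2 h3 hq0

end Pool.Agent.MP_648617_ag.Amp

end
end MrgPart7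

-- marker of a merged file
example : 731051 + 529575 = 731051 + 529575 := rfl
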